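import Pool.Agent.H95.DC.Ast

/-!
# Corollaries for all schemes and for smooth schemes over a field
-/

set_option autoImplicit false

open CategoryTheory CategoryTheory.Limits AlgebraicGeometry MvPolynomial TensorProduct

namespace Pool.Agent.H95.DC

open Pool.Agent.Y116.UV Pool.Agent.Z125.UN

variable {k : Type} [Field k] {s : Finset k → Prop} {P : Sch k → Prop} (hP : CovP True s P)

/-- The coverings are smooth over the field `k`. -/
lemma smooth_covS (S : Finset k) {σ : Type} [Finite σ] {m : ℕ} (f : Fin m → MvPolynomial σ k) :
    Smooth (covS S f).hom :=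
  smooth_aff (covS_smooth S (unitDiff_field S) f)

include hP

/-- All schemes over a field, and coverings given by trilinear forms. -/
theorem all_cov (S : Finset k) (hS : s S) :
    (∀ X : Sch k, FT True X → P X) ↔
      ∀ (a b c : ℕ) (t : Fin a → Fin b → Fin c → k), P (covS S (bq t)) := by
  rw [Pool.Agent.Q193.LT.all_iff hP.toBnd]
  refine forall_congr' fun a => forall_congr' fun b => forall_congr' fun c => forall_congr' fun t => ?_
  rw [covS_iff hP S (unitDiff_field S) hS (bq t)]
  exact (Pool.Agent.N882.UE.bil_iff hP.toBnd t).symm

end Pool.Agent.H95.DC
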