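import Pool.Agent.H95.DC.CBDefs
import Pool.Agent.H95.DC.Cor

/-!
# Schemes built from schemes of small dimension by coverings
-/

set_option autoImplicit false

open CategoryTheory CategoryTheory.Limits AlgebraicGeometry MvPolynomial TensorProduct

namespace Pool.Agent.H95.DC

open Pool.Agent.Y116.UV Pool.Agent.Z125.UN

section single

variable {R : Type} [CommRing R] {A : Type} [CommRing A] [Algebra R A]

/-- the covering with one leaf -/
noncomputable def covOne (c : R) {m : ℕ} (f : Fin m → A) :
    Cov {c} f ≃ₐ[R] MvPolynomial (Fin m) A :=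
  (AdjoinRoot.algEquivOfEq R _ (Polynomial.X - Polynomial.C (algebraMap R _ c + lin f)) (by
    rw [sp, Finset.prod_singleton, map_add, sub_sub])).trans
    ((Polynomial.quotientSpanXSubCAlgEquiv (algebraMap R (MvPolynomial (Fin m) A) c +
      lin f)).restrictScalars R)

end single

variable {k : Type} [Field k]

/-- The closure properties of `CovBuilt`. -/
structure CovPN (P : Sch k → Prop) : Prop extends Bnd True P where
  cover : ∀ (A : Type) [CommRing A] [Algebra k A] [Algebra.FiniteType k A] (S : Finset k) (m : ℕ)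
      (f : Fin m → A), S.Nonempty → P (aff k A) → P (aff k (A ⧸ Ideal.span (Set.range f))) →
        P (aff k (Cov S f))
  zero : ∀ (A : Type) [CommRing A] [Algebra k A] [Algebra.FiniteType k A] (S : Finset k) (m : ℕ)
      (f : Fin m → A), 2 ≤ S.card → P (aff k A) → P (aff k (Cov S f)) →
        P (aff k (A ⧸ Ideal.span (Set.range f)))

theorem covPN_of_covP {P : Sch k → Prop} (hP : CovP True (fun S : Finset k => 2 ≤ S.card) P) :
    CovPN P where
  toBnd := hP.toBnd
  cover A _ _ _ S m f hS hA h0 := by
    rcases Nat.lt_or_ge S.card 2 with h | h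
    · have h1 : S.card = 1 := by have := hS.card_pos; omega
      obtain ⟨c, rfl⟩ := Finset.card_eq_one.mp h1
      have h2 : P (aff k (MvPolynomial (Fin m) A)) := p_poly_fin hP.toBnd m hA
      have : Algebra.FiniteType k (MvPolynomial (Fin m) A) :=
        Algebra.FiniteType.trans (S := A) inferInstance inferInstance
      exact iso_alg hP.toUni (covOne c f).symm h2
    · exact (hP.cov A S (unitDiff_field S) h m f hA).mpr h0
  zero A _ _ _ S m f hS hA h := (hP.cov A S (unitDiff_field S) hS m f hA).mp h

theorem covP_of_covPN {P : Sch k → Prop} (hP : CovPN P) :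
    CovP True (fun S : Finset k => 2 ≤ S.card) P where
  toBnd := hP.toBnd
  cov A _ _ _ S _ hS m f hA :=
    ⟨hP.zero A S m f hS hA, hP.cover A S m f (Finset.card_pos.mp (by omega)) hA⟩

/-- The class itself has the closure properties. -/
theorem covPN_built (d : ℕ) : CovPN (CovBuilt (k := k) d) where
  iso {X Y} hX e h := .iso X Y hX e h
  total {Z X U} i j hX ht h1 h2 := .total Z X U i j hX ht h1 h2
  opened {Z X U} i j hX ht h1 h2 := .opened Z X U i j hX ht h1 h2
  closed {Z X U} i j hX ht h1 h2 := .closed Z X U i j hX ht h1 h2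
  space n := .space n
  jouanolou A _ _ _ m f U j h1 h2 h3 := .base A m f U ⟨j, h1, h2⟩ h3
  bundle A _ _ _ m f U j h1 h2 h3 := .bundle A m f U ⟨j, h1, h2⟩ h3
  torus A _ _ _ h := .torus A h
  cover A _ _ _ S m f h1 h2 h3 := .cover A S m f h1 h2 h3
  zero A _ _ _ S m f h1 h2 h3 := .zero A S m f h1 h2 h3

/-- The properties with the closure properties which are true in dimension at most `d` are true for the
class. -/
theorem of_built {P : Sch k → Prop} (hP : CovPN P) {d : ℕ}
    (h : ∀ X : Sch k, FT True X → topologicalKrullDim X.left ≤ d → P X) (X : Sch k)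
    (hX : CovBuilt d X) : P X := by
  induction hX with
  | dim X h1 h2 => exact h X h1 h2
  | space n => exact hP.space n
  | iso X Y h1 h2 _ ih => exact hP.iso h1 h2 ih
  | total Z X U i j h1 h2 _ _ ih1 ih2 => exact hP.total i j h1 h2 ih1 ih2
  | opened Z X U i j h1 h2 _ _ ih1 ih2 => exact hP.opened i j h1 h2 ih1 ih2
  | closed Z X U i j h1 h2 _ _ ih1 ih2 => exact hP.closed i j h1 h2 ih1 ih2
  | bundle A m f U h1 _ ih =>
    obtain ⟨j, h1, h2⟩ := h1
    exact hP.bundle A m f U j h1 h2 ih
  | base A m f U h1 _ ih =>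
    obtain ⟨j, h1, h2⟩ := h1
    exact hP.jouanolou A m f U j h1 h2 ih
  | torus A _ ih => exact hP.torus A ih
  | cover A S m f h1 _ _ ih1 ih2 => exact hP.cover A S m f h1 ih1 ih2
  | zero A S m f h1 _ _ ih1 ih2 => exact hP.zero A S m f h1 ih1 ih2

/-- Dimension at most `d` and the class. -/
theorem dim_iff_built {P : Sch k → Prop} (hP : CovPN P) (d : ℕ) :
    (∀ X : Sch k, FT True X → topologicalKrullDim X.left ≤ d → P X) ↔
      ∀ X : Sch k, CovBuilt d X → P X :=
  ⟨fun h => of_built hP h, fun h X h1 h2 => h X (.dim X h1 h2)⟩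

/-- Coverings and zero schemes in few variables or of small dimension are in the class. -/
theorem built_small {d : ℕ} (S : Finset k) (hS : S.Nonempty) {n m : ℕ}
    (f : Fin m → MvPolynomial (Fin n) k) (hn : n ≤ d + 1 ∨ topologicalKrullDim (zeroS f).left ≤ d) :
    CovBuilt d (zeroS f) ∧ CovBuilt d (covS S f) := by
  have h1 : CovBuilt d (zeroS f) := by
    rcases hn with hn | hn
    · exact zeroS_dim (covP_of_covPN (covPN_built d)) (fun X => .dim X) hn f
    · exact .dim _ (ft_aff True) hn
  exact ⟨h1, .cover _ S m f hS (.space n) h1⟩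

/-- The coverings given by the trilinear forms with few variables in the third block are in the
class. -/
theorem built_form [PerfectField k] {d : ℕ} (S : Finset k) (hS : S.Nonempty) {a b c : ℕ}
    (t : Fin a → Fin b → Fin c → k) (hc : c ≤ d + 2) : CovBuilt d (covS S (bq t)) := by
  have h1 : CovBuilt d (zeroS (bq t)) :=
    (Pool.Agent.N882.UE.dim_bil (covPN_built d).toBnd d).mp (fun X => .dim X) a b c t hc
  exact .cover _ S c (bq t) hS (iso_alg (covPN_built d).toUni
    (renameEquiv k (Fintype.equivFin (Fin a ⊕ Fin b)).symm) (.space _)) h1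

end Pool.Agent.H95.DC
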