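import Pool.Agent.H95.DC.Defs

/-!
# Artin–Schreier coverings of affine spaces: definitions
-/

set_option autoImplicit false

open CategoryTheory AlgebraicGeometry MvPolynomial

namespace Pool.Agent.H95.DC

open Pool.Agent.Y116.UV

variable {R : Type} [CommRing R]

/-- The ring `A[x_1, …, x_m][w] / (w^p - w - ∑ f_l x_l)`. -/
abbrev ASRing {A : Type} [CommRing A] (p : ℕ) {m : ℕ} (f : Fin m → A) : Type :=
  AdjoinRoot (Polynomial.X ^ p - Polynomial.X - Polynomial.C (lin f) :
    Polynomial (MvPolynomial (Fin m) A))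

/-- The Artin–Schreier covering `w^p - w = ∑ x_l f_l(z)` of the affine space with the coordinates `z_s`,
`s ∈ σ`, and `x_1, …, x_m`. -/
noncomputable def asS (p : ℕ) {σ : Type} {m : ℕ} (f : Fin m → MvPolynomial σ R) : Sch R :=
  aff R (ASRing p f)

end Pool.Agent.H95.DC
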