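import Pool.Agent.H95.DC.InvAdd

/-!
# Finite lists of test schemes
-/

set_option autoImplicit false

open CategoryTheory CategoryTheory.Limits AlgebraicGeometry MvPolynomial

namespace Pool.Agent.H95.DC

open Pool.Agent.Y116.UV Pool.Agent.Z125.UN Pool.Agent.H39.Bei

section list

variable {R : Type} [CommRing R] {sep : Prop} {ι : Sort*} (Φ : ι → Sch R → Prop)
  (T : Sch R → Prop)

/-- For finitely many schemes with the property `T`, which do not depend on `i`, the properties `Φ i`
imply the property `Φ i` of `X`. -/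
def Lst (X : Sch R) : Prop :=
  ∃ L : List (Sch R), (∀ Y ∈ L, T Y) ∧ ∀ i, (∀ Y ∈ L, Φ i Y) → Φ i X

variable {Φ T}

lemma lst_one {X Y : Sch R} (h : ∀ i, Φ i X → Φ i Y) (hX : Lst Φ T X) : Lst Φ T Y := by
  obtain ⟨L, h1, h2⟩ := hX
  exact ⟨L, h1, fun i h3 => h i (h2 i h3)⟩

lemma lst_two {X Y Z : Sch R} (h : ∀ i, Φ i X → Φ i Y → Φ i Z) (hX : Lst Φ T X)
    (hY : Lst Φ T Y) : Lst Φ T Z := by
  obtain ⟨L, h1, h2⟩ := hX
  obtain ⟨M, h3, h4⟩ := hY
  refine ⟨L ++ M, fun Y hY => ?_, fun i h5 => h i
    (h2 i fun Y hY => h5 Y (List.mem_append_left _ hY))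
    (h4 i fun Y hY => h5 Y (List.mem_append_right _ hY))⟩
  rcases List.mem_append.mp hY with h | h
  · exact h1 Y h
  · exact h3 Y h

lemma lst_zero {X : Sch R} (h : ∀ i, Φ i X) : Lst Φ T X :=
  ⟨[], fun _ h => absurd h List.not_mem_nil, fun i _ => h i⟩

lemma lst_self {X : Sch R} (h : T X) : Lst Φ T X :=
  ⟨[X], fun Y hY => by rw [List.mem_singleton.mp hY]; exact h,
    fun _ h => h X (List.mem_singleton_self X)⟩

theorem bnd_lst (h : ∀ i, Bnd sep (Φ i)) : Bnd sep (Lst Φ T) where
  iso hX e := lst_one fun i => (h i).iso hX e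
  total i j hX ht := lst_two fun l => (h l).total i j hX ht
  opened i j hX ht := lst_two fun l => (h l).opened i j hX ht
  closed i j hX ht := lst_two fun l => (h l).closed i j hX ht
  space m := lst_zero fun l => (h l).space m
  jouanolou A _ _ _ m f U j hj hr := lst_one fun l => (h l).jouanolou A m f U j hj hr
  torus A _ _ _ := lst_one fun l => (h l).torus A
  bundle A _ _ _ m f U j hj hr := lst_one fun l => (h l).bundle A m f U j hj hr

end list

/-- Finitely many coverings given by trilinear forms decide. -/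
theorem lst_forms {k : Type} [Field k] [PerfectField k] {ι : Sort*} {Φ : ι → Sch k → Prop}
    {s : Finset k → Prop} (h : ∀ i, CovP True s (Φ i)) {T : Sch k → Prop} (S : Finset k) (hS : s S)
    (d : ℕ) (hT : ∀ (a b c : ℕ) (t : Fin a → Fin b → Fin c → k), c ≤ d + 2 →
      Lst Φ T (covS S (bq t))) (X : Sch k) (hX : FT True X)
    (hd : topologicalKrullDim X.left ≤ d) : Lst Φ T X := by
  have hB : Bnd True (Lst Φ T) := bnd_lst fun i => (h i).toBnd
  refine (Pool.Agent.N882.UE.dim_bil hB d).mpr (fun a b c t hc => ?_) X hX hd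
  exact lst_one (fun i => (covS_iff (h i) S (unitDiff_field S) hS (bq t)).mp) (hT a b c t hc)

section int

variable {k : Type} [Field k] {δ : Sch k → ℤ → ℤ}

/-- coverings of any degree for integral invariants -/
theorem covP_int (h : IsAdditive δ) :
    CovP True (fun S : Finset k => 2 ≤ S.card) (Zero δ) :=
  covP_of_inv (inv_of_additive h) (bnd_additive h) _ fun S hS => ⟨hS, fun x hx => by
    rw [nsmul_eq_mul, Nat.cast_sub (by omega : 1 ≤ S.card)] at hx
    rcases mul_eq_zero.mp hx with h1 | h1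
    · exfalso
      push_cast at h1
      omega
    · exact h1⟩

/-- the invariant of the Artin–Schreier coverings -/
theorem additive_as (p : ℕ) [hp : Fact p.Prime] [CharP k p] {M : Type*} [AddCommGroup M]
    {δ : Sch k → ℤ → M} (h : IsAdditive δ) {n m : ℕ} (f : Fin m → MvPolynomial (Fin n) k) (c : ℤ) :
    δ (asS p f) c = (p - 1) • δ (zeroS f) (c - m) := by
  have h1 := additive_cov h (Fp k p) (Finset.card_pos.mp (by rw [card_Fp]; exact hp.out.pos)) f c
  rw [card_Fp] at h1
  rw [← h1]
  have h2 : Algebra.FiniteType k (ASRing p f) :=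
    Algebra.FiniteType.equiv inferInstance (asE k p f)
  exact inv_alg (inv_of_additive h) (asE k p f).symm c

end int

end Pool.Agent.H95.DC
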