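import Pool.Agent.H95.DC.Jou
import Pool.Agent.H89.L.Z125_UN_Bnd
import Pool.Agent.H89.L.Z125_UN_Dim

/-!
# Additive invariants of the coverings
-/

set_option autoImplicit false

open CategoryTheory AlgebraicGeometry MvPolynomial

namespace Pool.Agent.H95.DC

open Pool.Agent.Y116.UV Pool.Agent.Z125.UN

variable {R : Type} [CommRing R]

section crt

variable (D : Type) [CommRing D] [Algebra R D]

/-- Chinese remainder theorem -/
noncomputable def crt (T : Finset R) (c : R) (hc : c ∉ T) (hT : UnitDiff (Finset.cons c T hc)) :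
    AdjoinRoot (sp D (Finset.cons c T hc)) ≃+* D × AdjoinRoot (sp D T) :=
  (Ideal.quotEquivOfEq (by
      rw [sp, Finset.prod_cons, ← Ideal.span_singleton_mul_span_singleton]
      rfl)).trans
    ((Ideal.quotientMulEquivQuotientProd
      (Ideal.span {Polynomial.X - Polynomial.C (algebraMap R D c)}) (Ideal.span {sp D T}) (by
        rw [Ideal.isCoprime_span_singleton_iff, sp]
        apply IsCoprime.prod_right
        intro c' hc'
        apply Polynomial.isCoprime_X_sub_C_of_isUnit_sub
        rw [← map_sub]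
        apply IsUnit.map
        refine hT c (Finset.mem_cons_self _ _) c' (Finset.mem_cons_of_mem hc') ?_
        rintro rfl
        exact hc hc')).trans
      (RingEquiv.prodCongr (Polynomial.quotientSpanXSubCAlgEquiv _).toRingEquiv
        (RingEquiv.refl _)))

/-- Chinese remainder theorem -/
noncomputable def crtA (T : Finset R) (c : R) (hc : c ∉ T) (hT : UnitDiff (Finset.cons c T hc)) :
    AdjoinRoot (sp D (Finset.cons c T hc)) ≃ₐ[R] D × AdjoinRoot (sp D T) :=
  AlgEquiv.ofRingEquiv (f := crt D T c hc hT) (by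
    intro r
    ext
    · change (Polynomial.C (algebraMap R D r)).eval _ = algebraMap R D r
      rw [Polynomial.eval_C]
    · rfl)

lemma UnitDiff.of_cons {T : Finset R} {c : R} {hc : c ∉ T} (hT : UnitDiff (Finset.cons c T hc)) :
    UnitDiff T :=
  fun a ha b hb => hT a (Finset.mem_cons_of_mem ha) b (Finset.mem_cons_of_mem hb)

end crt

section prod

variable (C D : Type) [CommRing C] [CommRing D] [Algebra R C] [Algebra R D]

lemma open_fst : IsOpenImmersion (affMap (AlgHom.fst R C D)).left := by
  refine (isOpenImmersion_SpecMap_iff_of_surjective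
    (CommRingCat.ofHom (AlgHom.fst R C D).toRingHom) Prod.fst_surjective).mpr
      ⟨(0, 1), by ext <;> simp, ?_⟩
  ext z
  rw [RingHom.mem_ker, Ideal.mem_span_singleton]
  constructor
  · intro h
    refine ⟨z, ?_⟩
    have h2 : z.1 = 0 := h
    ext <;> simp [h2]
  · rintro ⟨y, rfl⟩
    change ((0, 1) * y : C × D).1 = 0
    simp

lemma open_snd : IsOpenImmersion (affMap (AlgHom.snd R C D)).left := by
  refine (isOpenImmersion_SpecMap_iff_of_surjective
    (CommRingCat.ofHom (AlgHom.snd R C D).toRingHom) Prod.snd_surjective).mpr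
      ⟨(1, 0), by ext <;> simp, ?_⟩
  ext z
  rw [RingHom.mem_ker, Ideal.mem_span_singleton]
  constructor
  · intro h
    refine ⟨z, ?_⟩
    have h2 : z.2 = 0 := h
    ext <;> simp [h2]
  · rintro ⟨y, rfl⟩
    change ((1, 0) * y : C × D).2 = 0
    simp

lemma triple_prod : IsTriple (affMap (AlgHom.fst R C D)) (affMap (AlgHom.snd R C D)) where
  closed := closed_affMap _ Prod.fst_surjective
  opened := open_snd C D
  compl := by
    rw [range_affMap _ Prod.fst_surjective, range_affMap _ Prod.snd_surjective]
    ext x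
    change (∀ a : C × D, a.1 = 0 → a ∈ x.asIdeal) ↔ ¬ (∀ a : C × D, a.2 = 0 → a ∈ x.asIdeal)
    constructor
    · intro h h'
      apply x.isPrime.ne_top
      rw [Ideal.eq_top_iff_one]
      have h1 : (1 : C × D) = (0, 1) + (1, 0) := by ext <;> simp
      rw [h1]
      exact x.asIdeal.add_mem (h _ rfl) (h' _ rfl)
    · intro h
      by_contra h'
      have h1 : ((1, 0) : C × D) * (0, 1) ∈ x.asIdeal := by
        have : ((1, 0) : C × D) * (0, 1) = 0 := by ext <;> simp
        rw [this]
        exact x.asIdeal.zero_mem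
      rcases x.isPrime.mem_or_mem h1 with h2 | h2
      · apply h
        intro a ha
        have : a = a * (1, 0) := by ext <;> simp [ha]
        rw [this]
        exact x.asIdeal.mul_mem_left _ h2
      · apply h'
        intro a ha
        have : a = a * (0, 1) := by ext <;> simp [ha]
        rw [this]
        exact x.asIdeal.mul_mem_left _ h2

end prod

/-- `U` is the open subscheme of `Spec A` where the functions `f` are not all zero. -/
def IsCompl {A : Type} [CommRing A] [Algebra R A] {m : ℕ} (f : Fin m → A) (U : Sch R)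
    (j : U ⟶ aff R A) : Prop :=
  IsOpenImmersion j.left ∧ Set.range j.left = {x : PrimeSpectrum A | ∃ l, f l ∉ x.asIdeal}

/-- Additive invariants of the schemes of finite type over `R`, with values in the Laurent polynomials
with coefficients in an abelian group, which are compatible with affine bundles. -/
structure Inv {M : Type*} [AddCommGroup M] (sep : Prop) (δ : Sch R → ℤ → M) : Prop where
  iso : ∀ {X Y : Sch R}, FT sep X → Nonempty (X ≅ Y) → ∀ c, δ X c = δ Y c
  add : ∀ {Z X U : Sch R} (i : Z ⟶ X) (j : U ⟶ X), FT sep X → IsTriple i j →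
    ∀ c, δ X c = δ Z c + δ U c
  bundle : ∀ (A : Type) [CommRing A] [Algebra R A] [Algebra.FiniteType R A] (m : ℕ) (f : Fin m → A)
    (U : Sch R) (j : U ⟶ aff R A), IsCompl f U j →
    ∀ c, δ (aff R (Jou f)) c = δ U (c - (m - 1))

section

variable {M : Type*} [AddCommGroup M] {sep : Prop} {δ : Sch R → ℤ → M} (h : Inv sep δ)

include h

lemma inv_alg {A B : Type} [CommRing A] [CommRing B] [Algebra R A] [Algebra R B]
    [Algebra.FiniteType R A] (e : A ≃ₐ[R] B) (c : ℤ) : δ (aff R A) c = δ (aff R B) c :=
  h.iso (ft_aff sep) ⟨(affIso e).symm⟩ c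

lemma inv_prod (C D : Type) [CommRing C] [CommRing D] [Algebra R C] [Algebra R D]
    [Algebra.FiniteType R C] [Algebra.FiniteType R D] (c : ℤ) :
    δ (aff R (C × D)) c = δ (aff R C) c + δ (aff R D) c :=
  h.add _ _ (ft_aff sep) (triple_prod C D) c

lemma inv_empty (B : Type) [CommRing B] [Algebra R B] (hB : Subsingleton B) (c : ℤ) :
    δ (aff R B) c = 0 := by
  have : Algebra.FiniteType R B := ⟨⟨∅, by
    ext x
    simp [Subsingleton.elim x 0]⟩⟩
  let e : (B × B) ≃ₐ[R] B :=
    AlgEquiv.ofRingEquiv (f := { toFun := fun _ => 0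
                                 invFun := fun _ => 0
                                 left_inv := fun _ => Subsingleton.elim _ _
                                 right_inv := fun _ => Subsingleton.elim _ _
                                 map_mul' := fun _ _ => Subsingleton.elim _ _
                                 map_add' := fun _ _ => Subsingleton.elim _ _ })
      (fun _ => Subsingleton.elim _ _)
  have h1 := inv_prod h B B c
  rw [inv_alg h e] at h1
  have h2 : δ (aff R B) c + 0 = δ (aff R B) c + δ (aff R B) c := by rw [add_zero]; exact h1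
  exact (add_left_cancel h2).symm

lemma inv_roots (D : Type) [CommRing D] [Algebra R D] [Algebra.FiniteType R D] (T : Finset R)
    (hT : UnitDiff T) (c : ℤ) : δ (aff R (AdjoinRoot (sp D T))) c = T.card • δ (aff R D) c := by
  induction T using Finset.cons_induction with
  | empty =>
    rw [Finset.card_empty, zero_smul]
    apply inv_empty h
    have : sp D (∅ : Finset R) = 1 := Finset.prod_empty
    rw [this]
    exact Ideal.Quotient.subsingleton_iff.mpr Ideal.span_singleton_one
  | cons a T ha ih =>
    rw [inv_alg h (crtA D T a ha hT), inv_prod h, ih hT.of_cons, Finset.card_cons, add_smul,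
      one_smul, add_comm]

lemma inv_unit (A : Type) [CommRing A] [Algebra R A] [Algebra.FiniteType R A] {m : ℕ}
    (f : Fin m → A) (hf : Ideal.span (Set.range f) = ⊤) (c : ℤ) :
    δ (aff R (Jou f)) c = δ (aff R A) (c - (m - 1)) := by
  refine h.bundle A m f (aff R A) (𝟙 _) ⟨?_, ?_⟩ c
  · exact inferInstanceAs (IsOpenImmersion (𝟙 (aff R A).left))
  · have h1 : Set.range (𝟙 (aff R A) : aff R A ⟶ aff R A).left = Set.univ := Set.range_id
    have h2 : {x : PrimeSpectrum A | ∃ l, f l ∉ x.asIdeal} = Set.univ := by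
      rw [Set.eq_univ_iff_forall]
      intro x
      by_contra h3
      have h4 : ∀ l, f l ∈ x.asIdeal := fun l => by
        by_contra h5
        exact h3 ⟨l, h5⟩
      apply x.isPrime.ne_top
      rw [eq_top_iff, ← hf, Ideal.span_le]
      rintro _ ⟨l, rfl⟩
      exact h4 l
    exact h1.trans h2.symm

lemma inv_poly (A : Type) [CommRing A] [Algebra R A] [Algebra.FiniteType R A] (n : ℕ) (c : ℤ) :
    δ (aff R (MvPolynomial (Fin n) A)) c = δ (aff R A) (c - n) := by
  have : Algebra.FiniteType R (MvPolynomial (Fin n) A) :=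
    Algebra.FiniteType.trans (S := A) inferInstance inferInstance
  rw [inv_alg h ((jouOne A n).restrictScalars R).symm, inv_unit h A (f1 A n)]
  · congr 1
    push_cast
    ring
  · rw [Ideal.eq_top_iff_one]
    exact Ideal.subset_span ⟨0, rfl⟩

/-- The open subscheme where the functions `f` are not all zero. -/
lemma inv_zero (A : Type) [CommRing A] [Algebra R A] [Algebra.FiniteType R A] {m : ℕ}
    (f : Fin m → A) (U : Sch R) (j : U ⟶ aff R A) (hj : IsCompl f U j) (c : ℤ) :
    δ (aff R A) c = δ (aff R (A ⧸ Ideal.span (Set.range f))) c + δ U c := by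
  refine h.add (affMap (Ideal.Quotient.mkₐ R (Ideal.span (Set.range f)))) j (ft_aff sep)
    ⟨closed_affMap _ (Ideal.Quotient.mkₐ_surjective R _), hj.1, ?_⟩ c
  rw [range_affMap _ (Ideal.Quotient.mkₐ_surjective R _), hj.2]
  ext x
  change (∀ a, Ideal.Quotient.mk (Ideal.span (Set.range f)) a = 0 → a ∈ x.asIdeal) ↔
    ¬ ∃ l, f l ∉ x.asIdeal
  constructor
  · rintro h1 ⟨l, hl⟩
    exact hl (h1 _ (Ideal.Quotient.eq_zero_iff_mem.mpr (Ideal.subset_span ⟨l, rfl⟩)))
  · intro h1 a ha
    rw [Ideal.Quotient.eq_zero_iff_mem] at ha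
    have h2 : Ideal.span (Set.range f) ≤ x.asIdeal := by
      rw [Ideal.span_le]
      rintro _ ⟨l, rfl⟩
      by_contra hl
      exact h1 ⟨l, hl⟩
    exact h2 ha

end

/-- the open subscheme where the functions `f` are not all zero -/
lemma exists_compl {A : Type} [CommRing A] [Algebra R A] {m : ℕ} (f : Fin m → A) :
    ∃ (U : Sch R) (j : U ⟶ aff R A), IsCompl f U j := by
  let V : (aff R A).left.Opens := ⟨{x : PrimeSpectrum A | ∃ l, f l ∉ x.asIdeal}, by
    have h1 : {x : PrimeSpectrum A | ∃ l, f l ∉ x.asIdeal} =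
        ⋃ l, (PrimeSpectrum.basicOpen (f l) : Set (PrimeSpectrum A)) := by
      ext x
      simp
    change IsOpen {x : PrimeSpectrum A | ∃ l, f l ∉ x.asIdeal}
    rw [h1]
    exact isOpen_iUnion fun l => (PrimeSpectrum.basicOpen (f l)).isOpen⟩
  exact ⟨opn _ V, opnMap _ V, inferInstance, range_opnMap _ V⟩

section main

variable {M : Type*} [AddCommGroup M] {sep : Prop} {δ : Sch R → ℤ → M} (h : Inv sep δ)
  {A : Type} [CommRing A] [Algebra R A] [Algebra.FiniteType R A] (S : Finset R) {m : ℕ}
  (f : Fin m → A)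

include h

/-- The open part of the covering. -/
lemma inv_open (U : Sch R) (j : U ⟶ aff R A) (hj : IsCompl f U j) (U' : Sch R)
    (j' : U' ⟶ aff R (Cov S f)) (hj' : IsCompl (fc S f) U' j') (c : ℤ) :
    δ U' c = δ U (c - m) := by
  have e1 : Algebra.FiniteType R (Jou f) :=
    Algebra.FiniteType.trans (S := A) inferInstance inferInstance
  have e2 : Algebra.FiniteType R (JJ f) :=
    Algebra.FiniteType.trans (S := Jou f) inferInstance inferInstance
  have e3 : Algebra.FiniteType R (JC S f) :=
    Algebra.FiniteType.trans (S := Cov S f) inferInstance inferInstance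
  have h1 := h.bundle (Cov S f) m (fc S f) U' j' hj' (c + (m - 1))
  have h2 := h.bundle A m f U j hj (c - 1)
  have h3 : δ (aff R (JJ f)) (c + (m - 1) - 1) = δ (aff R (Jou f)) (c - 1) := by
    rw [inv_unit h (Jou f) (fj f)]
    · congr 1
      ring
    · rw [Ideal.eq_top_iff_one, ← jou_rel (A := A) f]
      refine Ideal.sum_mem _ fun l _ => Ideal.mul_mem_right _ _ (Ideal.subset_span ⟨l, rfl⟩)
  have h4 : δ (aff R (JC S f)) (c + (m - 1)) = δ (aff R (JJ f)) (c + (m - 1) - 1) := by
    rw [inv_alg h (A := JC S f) (B := JX f) ((jouE S f).restrictScalars R), inv_poly h (JJ f) 1]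
    congr 1
  rw [add_sub_cancel_right] at h1
  rw [← h1, h4, h3, h2]
  congr 1
  ring

/-- **The invariant of the covering.** -/
theorem inv_cov (hS : UnitDiff S) (hne : S.Nonempty) (c : ℤ) : δ (aff R (Cov S f)) c =
    δ (aff R A) (c - m) +
      (S.card - 1) • δ (aff R (A ⧸ Ideal.span (Set.range f))) (c - m) := by
  obtain ⟨U, j, hj⟩ := exists_compl (R := R) f
  obtain ⟨U', j', hj'⟩ := exists_compl (R := R) (fc S f)
  let θ : Cov S f →ₐ[R] WW S f := (theta S S subset_rfl f).restrictScalars R
  have hθ : Function.Surjective θ := theta_surj S S subset_rfl f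
  have h1 : δ (aff R (Cov S f)) c = δ (aff R (WW S f)) c + δ U' c := by
    refine h.add (affMap θ) j' (ft_aff sep) ⟨closed_affMap _ hθ, hj'.1, ?_⟩ c
    rw [range_affMap _ hθ, hj'.2]
    ext x
    refine (theta_range S S subset_rfl f x).trans ?_
    change _ ↔ ¬ ∃ l, fc S f l ∉ x.asIdeal
    rw [not_exists]
    constructor
    · rintro ⟨h2, -⟩ l hl
      exact hl (h2 l)
    · intro h2
      have h3 : ∀ l, algebraMap A _ (f l) ∈ x.asIdeal := fun l => not_not.mp (h2 l)
      refine ⟨h3, ?_⟩
      rw [cov_rel]
      exact Ideal.sum_mem _ fun l _ => Ideal.mul_mem_right _ _ (h3 l)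
  have h2 : δ (aff R (WW S f)) c =
      S.card • δ (aff R (A ⧸ Ideal.span (Set.range f))) (c - m) := by
    rw [inv_roots h (DD f) S hS, inv_poly h]
  have h3 := inv_open h S f U j hj U' j' hj' c
  have h4 := inv_zero h A f U j hj (c - m)
  obtain ⟨n, hn⟩ : ∃ n, S.card = n + 1 := ⟨S.card - 1, by have := hne.card_pos; omega⟩
  rw [h1, h2, h3, h4, hn, Nat.add_sub_cancel, add_smul, one_smul]
  abel

end main

end Pool.Agent.H95.DC
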