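import Pool.Agent.H95.DC.Basic
import Pool.Agent.H89.L.Z125_UN_Dim2

/-!
# The coverings are smooth
-/

set_option autoImplicit false

open CategoryTheory AlgebraicGeometry MvPolynomial

namespace Pool.Agent.H95.DC

variable {R A : Type} [CommRing R] [CommRing A] [Algebra R A]

lemma sp_separable (S : Finset R) (hS : UnitDiff S) (D : Type) [CommRing D] [Algebra R D] :
    (sp D S).Separable := by
  apply Polynomial.separable_prod'
  · intro c hc c' hc' hne
    apply Polynomial.isCoprime_X_sub_C_of_isUnit_sub
    rw [← map_sub]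
    exact (hS c hc c' hc' hne).map _
  · intro c _
    exact Polynomial.separable_X_sub_C

/-- The covering is formally smooth if `A` is. -/
theorem cov_formallySmooth [Algebra.FormallySmooth R A] (S : Finset R) (hS : UnitDiff S) {m : ℕ}
    (f : Fin m → A) : Algebra.FormallySmooth R (Cov S f) := by
  apply Algebra.FormallySmooth.of_comp_surjective
  intro B _ _ I hI g
  have hsur : Function.Surjective (Ideal.Quotient.mkₐ R I) := Ideal.Quotient.mkₐ_surjective R I
  obtain ⟨α, hα⟩ := Algebra.FormallySmooth.comp_surjective R A I hI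
    (g.comp (IsScalarTower.toAlgHom R A (Cov S f)))
  have hα' : ∀ a, Ideal.Quotient.mk I (α a) = g (algebraMap A (Cov S f) a) :=
    fun a => DFunLike.congr_fun hα a
  choose x hx using fun l => hsur (g (cx S f l))
  obtain ⟨w, hw⟩ := hsur (g (cw S f))
  let G : Polynomial B := sp B S
  have hG : ∀ t : B, G.eval t = ∏ c ∈ S, (t - algebraMap R B c) := by
    intro t
    simp [G, sp, Polynomial.eval_prod]
  obtain ⟨u, v, huv⟩ := sp_separable S hS B
  let d : B := G.eval w - ∑ l, α (f l) * x l
  have hd : d ∈ I := by
    rw [← Ideal.Quotient.eq_zero_iff_mem]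
    have h1 := congrArg g (cov_rel S f)
    rw [map_prod, map_sum] at h1
    change Ideal.Quotient.mk I (G.eval w - ∑ l, α (f l) * x l) = 0
    rw [map_sub, hG, map_prod, map_sum, sub_eq_zero]
    refine Eq.trans (Finset.prod_congr rfl fun c _ => ?_) (h1.trans
      (Finset.sum_congr rfl fun l _ => ?_))
    · rw [map_sub, map_sub, AlgHom.commutes]
      congr 1
    · rw [map_mul, map_mul, hα']
      congr 1
      exact (hx l).symm
  have hdd : d ^ 2 = 0 := by
    have h1 : d ^ 2 ∈ I ^ 2 := Ideal.pow_mem_pow hd 2
    rw [hI] at h1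
    exact h1
  let a : B := d * u.eval w
  let b : B := -(d * v.eval w)
  have hb : b ^ 2 = 0 := by
    have : b ^ 2 = d ^ 2 * (v.eval w) ^ 2 := by
      change (-(d * v.eval w)) ^ 2 = _
      ring
    rw [this, hdd, zero_mul]
  have hx' : ∏ c ∈ S, ((w + b) - algebraMap R B c) = ∑ l, α (f l) * ((1 + a) * x l) := by
    rw [← hG]
    have h1 := Polynomial.aeval_add_of_sq_eq_zero (R := B) G w b hb
    rw [Polynomial.coe_aeval_eq_eval, Polynomial.coe_aeval_eq_eval] at h1
    have h2 : ∑ l, α (f l) * ((1 + a) * x l) = (1 + a) * (G.eval w - d) := by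
      have : G.eval w - d = ∑ l, α (f l) * x l := sub_sub_cancel _ _
      rw [this, Finset.mul_sum]
      exact Finset.sum_congr rfl fun l _ => by ring
    have h3 := congrArg (Polynomial.eval w) huv
    rw [Polynomial.eval_add, Polynomial.eval_mul, Polynomial.eval_mul, Polynomial.eval_one] at h3
    rw [h1, h2]
    change G.eval w + (Polynomial.derivative G).eval w * (-(d * v.eval w)) =
      (1 + d * u.eval w) * (G.eval w - d)
    have h4 : (Polynomial.derivative G).eval w = (Polynomial.derivative (sp B S)).eval w := rfl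
    have h5 : G.eval w = (sp B S).eval w := rfl
    rw [h4, h5]
    linear_combination (-d) * h3 + u.eval w * hdd
  let _ : Algebra A B := α.toRingHom.toAlgebra
  have hAB : ∀ a : A, algebraMap A B a = α a := fun _ => rfl
  have hst : IsScalarTower R A B := IsScalarTower.of_algebraMap_eq fun r => (α.commutes r).symm
  let φ : Cov S f →ₐ[A] B := covLift S f (fun l => (1 + a) * x l) (w + b) (by
    simp_rw [hAB, AlgHom.commutes]
    exact hx')
  have ha0 : Ideal.Quotient.mk I a = 0 :=
    Ideal.Quotient.eq_zero_iff_mem.mpr (I.mul_mem_right _ hd)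
  have hb0 : Ideal.Quotient.mk I b = 0 :=
    Ideal.Quotient.eq_zero_iff_mem.mpr (I.neg_mem (I.mul_mem_right _ hd))
  refine ⟨φ.restrictScalars R, ?_⟩
  have h1 : ((Ideal.Quotient.mk I).comp φ.toRingHom) = g.toRingHom := by
    apply AdjoinRoot.ringHom_ext
    · apply MvPolynomial.ringHom_ext
      · intro t
        change Ideal.Quotient.mk I (φ (algebraMap A _ t)) = g (algebraMap A _ t)
        rw [AlgHom.commutes, hAB, hα']
      · intro l
        change Ideal.Quotient.mk I (φ (cx S f l)) = g (cx S f l)
        rw [covLift_x, map_mul, map_add, map_one, ha0, add_zero, one_mul]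
        exact hx l
    · change Ideal.Quotient.mk I (φ (cw S f)) = g (cw S f)
      rw [covLift_w, map_add, hb0, add_zero]
      exact hw
  exact AlgHom.ext fun t => DFunLike.congr_fun h1 t

/-- The covering is smooth if `A` is. -/
theorem cov_smooth [Algebra.Smooth R A] (S : Finset R) (hS : UnitDiff S) {m : ℕ} (f : Fin m → A) :
    Algebra.Smooth R (Cov S f) where
  formallySmooth := cov_formallySmooth S hS f
  finitePresentation := by
    have h1 : Algebra.FinitePresentation A (MvPolynomial (Fin m) A) := inferInstance
    have h2 : Algebra.FinitePresentation R (MvPolynomial (Fin m) A) :=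
      Algebra.FinitePresentation.trans R A _
    exact inferInstance

theorem covS_smooth (S : Finset R) (hS : UnitDiff S) {σ : Type} [Finite σ] {m : ℕ}
    (f : Fin m → MvPolynomial σ R) : Algebra.Smooth R (Cov S f) := by
  have : Algebra.Smooth R (MvPolynomial σ R) := ⟨inferInstance, inferInstance⟩
  exact cov_smooth S hS f

end Pool.Agent.H95.DC
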