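import Pool.Agent.H95.DC.Fibre
import Pool.Agent.H95.DC.Add
import Pool.Agent.H95.DC.Smooth
import Pool.Agent.H95.M.N882_UE_Bil
import Pool.Agent.H95.M.Q282_UZ_Sys
import Pool.Agent.H89.L.Q193_LT_Prime

/-!
# Properties of schemes and coverings of affine spaces
-/

set_option autoImplicit false

open CategoryTheory CategoryTheory.Limits AlgebraicGeometry MvPolynomial TensorProduct

namespace Pool.Agent.H95.DC

open Pool.Agent.Y116.UV Pool.Agent.Z125.UN Pool.Agent.Q282.UK Pool.Agent.Q282.UZ

variable {R : Type} [CommRing R]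

/-- As `Bnd`; moreover, for the sets `S` with the property `s`, if `P` holds for `Spec A`, then it holds
for the covering `∏_{c ∈ S} (w - c) = ∑ x_l f_l` of `𝔸^m_A` if and only if it holds for the closed
subscheme `f = 0` of `Spec A`. -/
structure CovP (sep : Prop) (s : Finset R → Prop) (P : Sch R → Prop) : Prop extends Bnd sep P where
  cov : ∀ (A : Type) [CommRing A] [Algebra R A] [Algebra.FiniteType R A] (S : Finset R),
    UnitDiff S → s S → ∀ (m : ℕ) (f : Fin m → A), P (aff R A) →
      (P (aff R (Cov S f)) ↔ P (aff R (A ⧸ Ideal.span (Set.range f))))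

/-- Properties which are closed under closed-open decompositions, under `𝔾_m`- and Jouanolou bundles,
under the passage to open and closed subschemes and under flat morphisms with affine spaces as fibres, in
both directions. -/
structure Fla (sep : Prop) (P : Sch R → Prop) : Prop extends Bnd sep P where
  clopen : ∀ {Z X : Sch R} (i : Z ⟶ X), FT sep X → IsClosedImmersion i.left →
    IsOpenImmersion i.left → P X → P Z
  fibres : ∀ {V S : Sch R} (q : V ⟶ S) (r : ℕ), FT sep V → FT sep S → Flat q.left →
    AffineFibres q.left r → (P S ↔ P V)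

section fla

variable {sep : Prop} {P : Sch R → Prop} (hP : Fla sep P)

section prod

variable (C D : Type) [CommRing C] [CommRing D] [Algebra R C] [Algebra R D]
  [Algebra.FiniteType R C] [Algebra.FiniteType R D]

include hP in
lemma p_prod : P (aff R (C × D)) ↔ P (aff R C) ∧ P (aff R D) := by
  have : Algebra.FiniteType R (C × D) := inferInstance
  constructor
  · intro h
    exact ⟨hP.clopen _ (ft_aff sep) (closed_affMap _ Prod.fst_surjective) (open_fst C D) h,
      hP.clopen _ (ft_aff sep) (closed_affMap _ Prod.snd_surjective) (open_snd C D) h⟩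
  · rintro ⟨h1, h2⟩
    exact hP.total _ _ (ft_aff sep) (triple_prod C D) h1 h2

end prod

section roots

variable (D : Type) [CommRing D] [Algebra R D] [Algebra.FiniteType R D]

include hP in
lemma p_roots (T : Finset R) (hD : UnitDiff T) (hT : T.Nonempty) :
    P (aff R (AdjoinRoot (sp D T))) ↔ P (aff R D) := by
  have h1 : ∀ (T : Finset R) (c : R) (hc : c ∉ T), UnitDiff (Finset.cons c T hc) →
      (P (aff R (AdjoinRoot (sp D (Finset.cons c T hc)))) ↔
        P (aff R D) ∧ P (aff R (AdjoinRoot (sp D T)))) := by
    intro T c hc hu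
    rw [← p_prod hP]
    exact ⟨iso_alg hP.toUni (crtA D T c hc hu), iso_alg hP.toUni (crtA D T c hc hu).symm⟩
  have h2 : ∀ T : Finset R, UnitDiff T → P (aff R D) → P (aff R (AdjoinRoot (sp D T))) := by
    intro T hu h
    induction T using Finset.cons_induction with
    | empty =>
      apply p_empty hP.toBnd
      have : sp D (∅ : Finset R) = 1 := Finset.prod_empty
      rw [this]
      exact Ideal.Quotient.subsingleton_iff.mpr Ideal.span_singleton_one
    | cons c T hc ih => exact (h1 T c hc hu).mpr ⟨h, ih hu.of_cons⟩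
  constructor
  · obtain ⟨T', c, hc, rfl⟩ := hT.exists_cons_eq
    intro h
    exact ((h1 T' c hc hD).mp h).1
  · exact h2 T hD

end roots

end fla

section polyinv

variable {sep : Prop} {P : Sch R → Prop} (hP : Bnd sep P) (A : Type) [CommRing A] [Algebra R A]
  [Algebra.FiniteType R A]

include hP in
lemma p_poly_inv (n : ℕ) (h : P (aff R (MvPolynomial (Fin n) A))) : P (aff R A) := by
  have h1 : IsOpenImmersion (𝟙 (aff R A) : aff R A ⟶ aff R A).left :=
    inferInstanceAs (IsOpenImmersion (𝟙 (aff R A).left))
  have h2 : Set.range (𝟙 (aff R A) : aff R A ⟶ aff R A).left =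
      {x : PrimeSpectrum A | ∃ l, f1 A n l ∉ x.asIdeal} := by
    have h1 : Set.range (𝟙 (aff R A) : aff R A ⟶ aff R A).left = Set.univ := Set.range_id
    have h2 : {x : PrimeSpectrum A | ∃ l, f1 A n l ∉ x.asIdeal} = Set.univ := by
      rw [Set.eq_univ_iff_forall]
      intro x
      exact ⟨0, fun h => x.isPrime.ne_top ((Ideal.eq_top_iff_one _).mpr h)⟩
    exact h1.trans h2.symm
  refine hP.jouanolou A (n + 1) (f1 A n) (aff R A) (𝟙 _) h1 h2 ?_
  have : Algebra.FiniteType R (MvPolynomial (Fin n) A) :=
    Algebra.FiniteType.trans (S := A) inferInstance inferInstance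
  exact iso_alg hP.toUni ((jouOne A n).restrictScalars R).symm h

end polyinv

section fla

variable {A : Type} [CommRing A] [Algebra R A]
  (S' : Finset R) (c₀ : R) (hc : c₀ ∉ S') {m : ℕ} (f : Fin m → A)

lemma flat_cov (S : Finset R) (hS : S.Nonempty) : Module.Flat A (Cov S f) := by
  have h1 := (cov_monic S f hS).free_adjoinRoot
  exact Module.Flat.trans A (MvPolynomial (Fin m) A) (Cov S f)

/-- the closed part -/
noncomputable def thetaK : Cov (Finset.cons c₀ S' hc) f →ₐ[R] WW S' f :=
  (theta S' (Finset.cons c₀ S' hc) (Finset.subset_cons hc) f).restrictScalars R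

lemma thetaK_surj : Function.Surjective (thetaK S' c₀ hc f) :=
  theta_surj S' _ (Finset.subset_cons hc) f

/-- the open part -/
noncomputable def opU : (aff R (Cov (Finset.cons c₀ S' hc) f)).left.Opens :=
  ⟨(Set.range (affMap (thetaK S' c₀ hc f)).left)ᶜ,
    have := closed_affMap _ (thetaK_surj S' c₀ hc f)
    (affMap (thetaK S' c₀ hc f)).left.isClosedEmbedding.isClosed_range.isOpen_compl⟩

lemma triple_cov : IsTriple (affMap (thetaK S' c₀ hc f)) (opnMap _ (opU S' c₀ hc f)) where
  closed := closed_affMap _ (thetaK_surj S' c₀ hc f)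
  opened := inferInstance
  compl := by
    rw [range_opnMap]
    exact (compl_compl _).symm

variable {sep : Prop} {P : Sch R → Prop} (hP : Fla sep P) [IsNoetherianRing R]
  [Algebra.FiniteType R A]

include hP in
/-- The open part. -/
lemma p_open (hu : UnitDiff (Finset.cons c₀ S' hc)) (hA : P (aff R A)) :
    P (opn (aff R (Cov (Finset.cons c₀ S' hc) f)) (opU S' c₀ hc f)) := by
  let B := Cov (Finset.cons c₀ S' hc) f
  have hN : IsNoetherianRing B := Algebra.FiniteType.isNoetherianRing R B
  have hft : FT sep (opn (aff R B) (opU S' c₀ hc f)) := by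
    apply ft_opn (ft_aff sep)
    exact TopologicalSpace.NoetherianSpace.isCompact (α := PrimeSpectrum B) _
  let q : opn (aff R B) (opU S' c₀ hc f) ⟶ aff R A :=
    opnMap _ _ ≫ affMap (IsScalarTower.toAlgHom R A B)
  have hflat : Module.Flat A B := flat_cov f _ (Finset.cons_nonempty hc)
  have hq1 : Flat (Spec.map (CommRingCat.ofHom (algebraMap A B))) := by
    rw [Flat.SpecMap_iff]
    exact RingHom.flat_algebraMap_iff.mpr hflat
  let U : (Spec (CommRingCat.of B)).Opens := opU S' c₀ hc f
  have hq : Flat q.left :=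
    inferInstanceAs (Flat (U.ι ≫ Spec.map (CommRingCat.ofHom (algebraMap A B))))
  refine (hP.fibres q m hft (ft_aff sep) hq ?_).mp hA
  refine cov_fibres S' c₀ hc f hu (opU S' c₀ hc f) fun x => ?_
  change x ∈ (Set.range (affMap (thetaK S' c₀ hc f)).left)ᶜ ↔ _
  rw [range_affMap _ (thetaK_surj S' c₀ hc f)]
  exact not_congr (theta_range S' _ (Finset.subset_cons hc) f x)

include hP in
/-- **The covering and the zero scheme.** -/
theorem cov_iff (hA : P (aff R A)) (S : Finset R) (hu : UnitDiff S) (hS : 2 ≤ S.card) :
    P (aff R (Cov S f)) ↔ P (aff R (A ⧸ Ideal.span (Set.range f))) := by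
  have hne : S.Nonempty := Finset.card_pos.mp (by omega)
  obtain ⟨S', c₀, hc, rfl⟩ := hne.exists_cons_eq
  rw [Finset.card_cons] at hS
  have hS' : S'.Nonempty := Finset.card_pos.mp (by omega)
  have hU := p_open S' c₀ hc f hP hu hA
  have h1 : P (aff R (Cov (Finset.cons c₀ S' hc) f)) ↔ P (aff R (WW S' f)) :=
    ⟨fun h => hP.closed _ _ (ft_aff sep) (triple_cov S' c₀ hc f) h hU,
      fun h => hP.total _ _ (ft_aff sep) (triple_cov S' c₀ hc f) h hU⟩
  have h2 : P (aff R (WW S' f)) ↔ P (aff R (DD f)) := p_roots hP (DD f) S' hu.of_cons hS'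
  rw [h1, h2]
  exact ⟨p_poly_inv hP.toBnd _ m, p_poly_fin hP.toBnd m⟩

end fla

theorem covP_of_fla [IsNoetherianRing R] {sep : Prop} {P : Sch R → Prop} (hP : Fla sep P) :
    CovP sep (fun S => 2 ≤ S.card) P where
  toBnd := hP.toBnd
  cov A _ _ _ S hu hS m f hA := cov_iff f hP hA S hu hS

section inv

variable {M : Type*} [AddCommGroup M] {sep : Prop} {δ : Sch R → ℤ → M}

/-- The vanishing of an additive invariant. -/
theorem covP_of_inv (h : Inv sep δ) (hP : Bnd sep fun X => ∀ c, δ X c = 0) (s : Finset R → Prop)
    (hs : ∀ S, s S → 2 ≤ S.card ∧ ∀ x : M, (S.card - 1) • x = 0 → x = 0) :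
    CovP sep s fun X => ∀ c, δ X c = 0 where
  toBnd := hP
  cov A _ _ _ S hu hS m f hA := by
    obtain ⟨h1, h2⟩ := hs S hS
    have hne : S.Nonempty := Finset.card_pos.mp (by omega)
    constructor
    · intro h3 c
      have h4 := inv_cov h S f hu hne (c + m)
      rw [h3, hA, zero_add, add_sub_cancel_right] at h4
      exact h2 _ h4.symm
    · intro h3 c
      rw [inv_cov h S f hu hne c, hA, h3, smul_zero, add_zero]

end inv

section cor

variable {sep : Prop} {s : Finset R → Prop} {P : Sch R → Prop} (hP : CovP sep s P)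

include hP

lemma p_space (σ : Type) [Fintype σ] : P (aff R (MvPolynomial σ R)) :=
  iso_alg hP.toUni (renameEquiv R (Fintype.equivFin σ).symm) (hP.space _)

theorem covS_iff {σ : Type} [Fintype σ] (S : Finset R) (hu : UnitDiff S) (hS : s S) {m : ℕ}
    (f : Fin m → MvPolynomial σ R) : P (covS S f) ↔ P (zeroS f) :=
  hP.cov _ S hu hS m f (p_space hP σ)

/-- All schemes over a quotient of the ring of integers, and coverings with at most three monomials for
every variable `x_l`. -/
theorem three_cov [IsNoetherianRing R] (hk : Function.Surjective (Int.cast : ℤ → R)) (S : Finset R)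
    (hu : UnitDiff S) (hS : s S) :
    (∀ X : Sch R, FT sep X → P X) ↔
      ∀ (a b c : ℕ) (E : Fin c → Finset (Fin a × Fin b)), (∀ l, (E l).card ≤ 3) →
        P (covS S (bf R E)) := by
  have hC : Clo sep P := ⟨hP.iso, hP.total, hP.opened, hP.torus⟩
  rw [three_iff (short_presents hk) hC]
  refine forall_congr' fun a => forall_congr' fun b => forall_congr' fun c => forall_congr' fun E =>
    forall_congr' fun _ => (covS_iff hP S hu hS _).symm

end cor

section field

variable {k : Type} [Field k] {s : Finset k → Prop} {P : Sch k → Prop} (hP : CovP True s P)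

lemma unitDiff_field (S : Finset k) : UnitDiff S := fun _ _ _ _ h =>
  (sub_ne_zero_of_ne h).isUnit

include hP

/-- zero schemes of dimension at most `d`, for all numbers of variables -/
theorem zeroS_dim {d : ℕ} (h : ∀ X : Sch k, FT True X → topologicalKrullDim X.left ≤ d → P X)
    {n m : ℕ} (hn : n ≤ d + 1) (f : Fin m → MvPolynomial (Fin n) k) : P (zeroS f) := by
  have h' : ∀ (A : Type) [CommRing A] [Algebra k A] [Algebra.FiniteType k A],
      ringKrullDim A ≤ d → P (aff k A) := by
    intro A _ _ _ hA
    exact h _ (ft_aff True) (by rw [topDim_aff]; exact hA)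
  rcases Nat.lt_or_ge d n with h1 | h1
  · obtain rfl : n = d + 1 := by omega
    exact dim_to_closed hP.toBnd h' _
  · apply h'
    refine (ringKrullDim_quotient_le _).trans ?_
    rw [MvPolynomial.ringKrullDim_of_isNoetherianRing, ringKrullDim_eq_zero_of_field]
    simp
    exact_mod_cast h1

/-- Schemes of dimension at most `d`, and coverings. -/
theorem dim_cov [PerfectField k] (S : Finset k) (hS : s S) (d : ℕ) :
    (∀ X : Sch k, FT True X → topologicalKrullDim X.left ≤ d → P X) ↔
      ∀ (a b c : ℕ) (t : Fin a → Fin b → Fin c → k), c ≤ d + 2 → P (covS S (bq t)) := by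
  rw [Pool.Agent.N882.UE.dim_bil hP.toBnd d]
  refine forall_congr' fun a => forall_congr' fun b => forall_congr' fun c => forall_congr' fun t =>
    forall_congr' fun _ => (covS_iff hP S (unitDiff_field S) hS (bq t)).symm

/-- All schemes over a prime field, and coverings given by sets of triples. -/
theorem frac_cov (hk : Pool.Agent.Q193.LT.Frac k) (S : Finset k) (hS : s S) :
    (∀ X : Sch k, FT True X → P X) ↔
      ∀ (a b c : ℕ) (E : Fin c → Finset (Fin a × Fin b)), P (covS S (bf k E)) := by
  classical
  constructor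
  · intro h a b c E
    exact h _ (ft_aff True)
  · intro h X hX
    refine Pool.Agent.Q193.LT.universal_frac hk hP.toUni ?_ X hX
    intro a b c H
    let E : Fin c → Finset (Fin a × Fin b) := fun l =>
      Finset.univ.filter fun e => (e.1, e.2, l) ∈ H
    let t : Fin a → Fin b → Fin c → k := fun i j l => if (i, j, l) ∈ H then 1 else 0
    have h1 : P (zeroS (bf k E)) := (covS_iff hP S (unitDiff_field S) hS _).mp (h a b c E)
    have h2 : bf k E = bq t := by
      funext l
      rw [bf, bq, Finset.sum_filter, Fintype.sum_prod_type]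
      refine Finset.sum_congr rfl fun i _ => Finset.sum_congr rfl fun j _ => ?_
      change (if (i, j, l) ∈ H then _ else _) = C (if (i, j, l) ∈ H then (1 : k) else 0) * _ * _
      split_ifs
      · rw [C_1, one_mul]
      · rw [C_0, zero_mul, zero_mul]
    rw [h2] at h1
    have h3 : P (hypS t) := (Pool.Agent.N882.UE.bil_iff hP.toBnd t).mp h1
    have h4 := tri_ind (R := k) H
    unfold tripS Trip
    rw [← h4]
    exact h3

end field

end Pool.Agent.H95.DC
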