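import Pool.Agent.H95.DC.Defs

/-!
# The rings of the coverings
-/

set_option autoImplicit false

open CategoryTheory AlgebraicGeometry MvPolynomial

namespace Pool.Agent.H95.DC

variable {R A : Type} [CommRing R] [CommRing A] [Algebra R A]

section sp

variable (D : Type) [CommRing D] [Algebra R D] (S : Finset R)

lemma sp_monic : (sp D S).Monic := by
  apply Polynomial.monic_prod_of_monic
  intro c _
  exact Polynomial.monic_X_sub_C _

lemma natDegree_sp [Nontrivial D] : (sp D S).natDegree = S.card := by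
  rw [sp, Polynomial.natDegree_prod_of_monic _ _ fun c _ => Polynomial.monic_X_sub_C _]
  simp

lemma eval₂_sp {T : Type} [CommRing T] (i : D →+* T) (w : T) :
    (sp D S).eval₂ i w = ∏ c ∈ S, (w - i (algebraMap R D c)) := by
  rw [sp, Polynomial.eval₂_finsetProd]
  simp

end sp

section lift

variable (S : Finset R) {m : ℕ} (f : Fin m → A)

lemma cov_monic (hS : S.Nonempty) :
    (sp (MvPolynomial (Fin m) A) S - Polynomial.C (lin f)).Monic := by
  nontriviality A
  apply (sp_monic _ S).sub_of_left
  refine Polynomial.degree_C_le.trans_lt ?_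
  rw [Polynomial.degree_eq_natDegree (sp_monic _ S).ne_zero, natDegree_sp]
  exact_mod_cast hS.card_pos

/-- the coordinates -/
noncomputable def cx (l : Fin m) : Cov S f := AdjoinRoot.of _ (X l)

/-- the function `w` -/
noncomputable def cw : Cov S f := AdjoinRoot.root _

lemma cov_rel : ∏ c ∈ S, (cw S f - algebraMap R (Cov S f) c) =
    ∑ l, algebraMap A (Cov S f) (f l) * cx S f l := by
  have h := AdjoinRoot.eval₂_root (sp (MvPolynomial (Fin m) A) S - Polynomial.C (lin f))
  rw [Polynomial.eval₂_sub, eval₂_sp, Polynomial.eval₂_C, sub_eq_zero] at h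
  exact h.trans ((map_sum (AdjoinRoot.of _) _ _).trans
    (Finset.sum_congr rfl fun l _ => map_mul _ _ _))

variable {T : Type} [CommRing T] [Algebra A T] (x : Fin m → T) (w : T)
  (h : ∏ c ∈ S, (w - algebraMap A T (algebraMap R A c)) = ∑ l, algebraMap A T (f l) * x l)

/-- Homomorphisms from the ring of the cover. -/
noncomputable def covLift : Cov S f →ₐ[A] T :=
  AdjoinRoot.liftAlgHom _ (aeval x) w (by
    rw [Polynomial.eval₂_sub, eval₂_sp, Polynomial.eval₂_C, sub_eq_zero]
    have h1 : ∀ c : R, ((aeval x : MvPolynomial (Fin m) A →ₐ[A] T) : MvPolynomial (Fin m) A →+* T)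
        (algebraMap R (MvPolynomial (Fin m) A) c) = algebraMap A T (algebraMap R A c) := by
      intro c
      rw [IsScalarTower.algebraMap_apply R A (MvPolynomial (Fin m) A)]
      exact (aeval x).commutes _
    simp_rw [h1, h]
    simp [lin])

lemma covLift_x (l : Fin m) : covLift S f x w h (cx S f l) = x l := by
  rw [covLift, cx, AdjoinRoot.liftAlgHom_of, aeval_X]

lemma covLift_w : covLift S f x w h (cw S f) = w := by
  rw [covLift, cw, AdjoinRoot.liftAlgHom_root]

omit h in
lemma cov_ext {φ ψ : Cov S f →ₐ[A] T} (hx : ∀ l, φ (cx S f l) = ψ (cx S f l))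
    (hw : φ (cw S f) = ψ (cw S f)) : φ = ψ := by
  apply AdjoinRoot.algHom_ext'
  · apply MvPolynomial.algHom_ext
    intro l
    exact hx l
  · exact hw

end lift

section theta

variable (S' S : Finset R) (hS : S' ⊆ S) {m : ℕ} (f : Fin m → A)

/-- The ring `(A / (f))[x_1, …, x_m]`. -/
abbrev DD {A : Type} [CommRing A] {m : ℕ} (f : Fin m → A) : Type :=
  MvPolynomial (Fin m) (A ⧸ Ideal.span (Set.range f))

/-- The ring `(A / (f))[x_1, …, x_m][w] / ∏_{c ∈ S'} (w - c)`. -/
abbrev WW {R A : Type} [CommRing R] [CommRing A] [Algebra R A] (S' : Finset R) {m : ℕ}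
    (f : Fin m → A) : Type := AdjoinRoot (sp (DD f) S')

lemma ww_rel : ∏ c ∈ S', ((AdjoinRoot.root _ : WW S' f) - algebraMap R _ c) = 0 := by
  have h := AdjoinRoot.eval₂_root (sp (DD f) S')
  rw [eval₂_sp] at h
  exact h

lemma ww_f (l : Fin m) : algebraMap A (WW S' f) (f l) = 0 := by
  have h : algebraMap A (WW S' f) (f l) =
      algebraMap (A ⧸ Ideal.span (Set.range f)) (WW S' f) (Ideal.Quotient.mk _ (f l)) := rfl
  have h2 : Ideal.Quotient.mk (Ideal.span (Set.range f)) (f l) = 0 :=
    Ideal.Quotient.eq_zero_iff_mem.mpr (Ideal.subset_span (Set.mem_range_self l))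
  rw [h, h2, map_zero]

/-- The closed part `f = 0`, `∏_{c ∈ S'} (w - c) = 0` of the cover. -/
noncomputable def theta : Cov S f →ₐ[A] WW S' f :=
  covLift S f (fun l => AdjoinRoot.of _ (X l)) (AdjoinRoot.root _) (by
    classical
    rw [← Finset.prod_sdiff hS]
    have h := ww_rel S' f
    have h1 : ∏ c ∈ S', ((AdjoinRoot.root _ : WW S' f) -
        algebraMap A _ (algebraMap R A c)) = 0 := h
    rw [h1, mul_zero, eq_comm]
    refine Finset.sum_eq_zero fun l _ => ?_
    rw [ww_f, zero_mul])

lemma theta_x (l : Fin m) : theta S' S hS f (cx _ f l) = AdjoinRoot.of _ (X l) :=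
  covLift_x _ _ _ _ _ _

lemma theta_w : theta S' S hS f (cw _ f) = AdjoinRoot.root _ :=
  covLift_w _ _ _ _ _

lemma theta_surj : Function.Surjective (theta S' S hS f) := by
  have h1 : ∀ d : DD f, ∃ b, theta S' S hS f b = AdjoinRoot.of _ d := by
    intro d
    induction d using MvPolynomial.induction_on with
    | C a =>
      obtain ⟨a, rfl⟩ := Ideal.Quotient.mk_surjective a
      exact ⟨algebraMap A _ a, (theta S' S hS f).commutes a⟩
    | add p q hp hq =>
      obtain ⟨b, hb⟩ := hp
      obtain ⟨c, hc⟩ := hq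
      exact ⟨b + c, by rw [map_add, hb, hc, map_add]⟩
    | mul_X p l hp =>
      obtain ⟨b, hb⟩ := hp
      exact ⟨b * cx _ f l, by rw [map_mul, hb, theta_x, map_mul]⟩
  intro z
  induction z using AdjoinRoot.induction_on with
  | ih p =>
    induction p using Polynomial.induction_on with
    | C a =>
      obtain ⟨b, hb⟩ := h1 a
      exact ⟨b, hb⟩
    | add p q hp hq =>
      obtain ⟨b, hb⟩ := hp
      obtain ⟨c, hc⟩ := hq
      exact ⟨b + c, by rw [map_add, hb, hc, map_add]⟩
    | monomial n a hp =>
      obtain ⟨b, hb⟩ := hp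
      refine ⟨b * cw _ f, ?_⟩
      rw [map_mul, hb, theta_w, pow_succ, ← mul_assoc, map_mul]
      rfl

/-- The prime ideals in the image of the closed part. -/
lemma theta_range (x : PrimeSpectrum (Cov S f)) :
    (∀ a, theta S' S hS f a = 0 → a ∈ x.asIdeal) ↔
      ((∀ l, algebraMap A _ (f l) ∈ x.asIdeal) ∧
        ∏ c ∈ S', (cw _ f - algebraMap R _ c) ∈ x.asIdeal) := by
  constructor
  · intro h
    refine ⟨fun l => h _ ?_, h _ ?_⟩
    · rw [AlgHom.commutes, ww_f]
    · rw [map_prod]
      refine Eq.trans (Finset.prod_congr rfl fun c _ => ?_) (ww_rel S' f)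
      rw [map_sub, theta_w]
      congr 1
      exact (theta S' S hS f).commutes (algebraMap R A c)
  · rintro ⟨h1, h2⟩
    let B := Cov S f ⧸ x.asIdeal
    let q : Cov S f →+* B := Ideal.Quotient.mk _
    let r1 : A ⧸ Ideal.span (Set.range f) →+* B :=
      Ideal.Quotient.lift _ (q.comp (algebraMap A _)) (by
        intro a ha
        have h : Ideal.span (Set.range f) ≤ RingHom.ker (q.comp (algebraMap A _)) := by
          rw [Ideal.span_le]
          rintro _ ⟨l, rfl⟩
          exact Ideal.Quotient.eq_zero_iff_mem.mpr (h1 l)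
        exact h ha)
    let r2 : DD f →+* B := eval₂Hom r1 fun l => q (cx _ f l)
    let r3 : WW S' f →+* B := AdjoinRoot.lift r2 (q (cw _ f)) (by
      rw [eval₂_sp]
      have h3 : ∀ c : R, r2 (algebraMap R (DD f) c) = q (algebraMap R _ c) := by
        intro c
        have h4 : r2 (algebraMap R (DD f) c) = r2 (C (Ideal.Quotient.mk _ (algebraMap R A c))) := rfl
        rw [h4, eval₂Hom_C]
        rfl
      simp_rw [h3, ← map_sub, ← map_prod]
      exact Ideal.Quotient.eq_zero_iff_mem.mpr h2)
    have h3 : r3.comp (theta S' S hS f).toRingHom = q := by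
      apply AdjoinRoot.ringHom_ext
      · apply MvPolynomial.ringHom_ext
        · intro a
          change r3 (theta S' S hS f (algebraMap A _ a)) = q (algebraMap A _ a)
          rw [AlgHom.commutes]
          change r3 (AdjoinRoot.of _ (C (Ideal.Quotient.mk _ a))) = _
          rw [AdjoinRoot.lift_of, eval₂Hom_C]
          rfl
        · intro l
          change r3 (theta S' S hS f (cx _ f l)) = q (cx _ f l)
          rw [theta_x, AdjoinRoot.lift_of, eval₂Hom_X']
      · change r3 (theta S' S hS f (cw _ f)) = q (cw _ f)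
        rw [theta_w, AdjoinRoot.lift_root]
    intro a ha
    have h4 : r3 (theta S' S hS f a) = q a := DFunLike.congr_fun h3 a
    rw [ha, map_zero] at h4
    exact Ideal.Quotient.eq_zero_iff_mem.mp h4.symm

end theta

end Pool.Agent.H95.DC
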