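import Pool.Agent.H95.DC.Cor
import Pool.Agent.H89.Dev.Main

/-!
# Classes of smooth proper varieties and coverings of affine spaces
-/

set_option autoImplicit false

open CategoryTheory CategoryTheory.Limits AlgebraicGeometry MvPolynomial TensorProduct

namespace Pool.Agent.H95.DC

open Pool.Agent.Y116.UV Pool.Agent.Z125.UN Pool.Agent.H89.Dev

section zero

variable {k : Type} [Field k] {s : Finset k → Prop} {P : Sch k → Prop} (hP : CovP True s P)

include hP

/-- Zero schemes in few variables or of small dimension, and their coverings. -/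
theorem small_cov {d : ℕ} (h : ∀ X : Sch k, FT True X → topologicalKrullDim X.left ≤ d → P X)
    (S : Finset k) (hS : s S) {n m : ℕ} (f : Fin m → MvPolynomial (Fin n) k)
    (hn : n ≤ d + 1 ∨ topologicalKrullDim (zeroS f).left ≤ d) :
    P (zeroS f) ∧ P (covS S f) := by
  rw [covS_iff hP S (unitDiff_field S) hS f, and_self]
  rcases hn with hn | hn
  · exact zeroS_dim hP h hn f
  · exact h _ (ft_aff True) hn

end zero

variable {k : Type} [Field k] [PerfectField k] {s : Finset k → Prop} {P : Sch k → Prop}
  (hP : CovP True s P) {Q : Sch k → Prop} (hQ : IsClass Q)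

include hP hQ

/-- The class in dimension at most `d` and all schemes of dimension at most `d`. -/
theorem class_dim {d : ℕ} (hM : ModelsIn Q d) : ForClass Q P d ↔
    ∀ X : Sch k, FT True X → topologicalKrullDim X.left ≤ d → P X :=
  ⟨fun h => devissage hP.toBnd hQ hM h, fun h X hX hd => h X (hQ.ft hX) hd⟩

/-- The class in dimension at most `d` and coverings given by trilinear forms. -/
theorem class_cov (S : Finset k) (hS : s S) {d : ℕ} (hM : ModelsIn Q d) : ForClass Q P d ↔
    ∀ (a b c : ℕ) (t : Fin a → Fin b → Fin c → k), c ≤ d + 2 → P (covS S (bq t)) :=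
  (class_dim hP hQ hM).trans (dim_cov hP S hS d)

/-- The class and all schemes. -/
theorem class_all (hM : ∀ n, ModelsIn Q n) : (∀ X, Q X → P X) ↔ ∀ X : Sch k, FT True X → P X := by
  constructor
  · intro h
    rw [Pool.Agent.Q193.LT.all_iff hP.toBnd]
    intro a b c T
    exact (Pool.Agent.H89.Dev.all_iff hP.toBnd hQ hM).mp h ⟨a, b, c, T⟩
  · intro h X hX
    exact h X (hQ.ft hX)

end Pool.Agent.H95.DC
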