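import Pool.Agent.H95.DC.DBDefs
import Pool.Agent.H95.DC.FinL
import Pool.Agent.H95.DC.CB

/-!
# Schemes built from schemes of small dimension by coverings
-/

set_option autoImplicit false

open CategoryTheory CategoryTheory.Limits AlgebraicGeometry MvPolynomial TensorProduct

namespace Pool.Agent.H95.DC

open Pool.Agent.Y116.UV Pool.Agent.Z125.UN Pool.Agent.H39.Bei Pool.Agent.H89.Dev

variable {k : Type} [Field k]

/-- The closure properties of `DBuilt`. -/
structure CovD (P : Sch k → Prop) : Prop extends Bnd True P where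
  cover : ∀ (A : Type) [CommRing A] [Algebra k A] [Algebra.FiniteType k A] (S : Finset k) (m : ℕ)
      (f : Fin m → A), S.Nonempty → P (aff k A) → P (aff k (A ⧸ Ideal.span (Set.range f))) →
        P (aff k (Cov S f))
  zero : ∀ (A : Type) [CommRing A] [Algebra k A] [Algebra.FiniteType k A] (S : Finset k) (m : ℕ)
      (f : Fin m → A), S.card = 2 → P (aff k A) → P (aff k (Cov S f)) →
        P (aff k (A ⧸ Ideal.span (Set.range f)))

theorem covD_of_covPN {P : Sch k → Prop} (hP : CovPN P) : CovD P where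
  toBnd := hP.toBnd
  cover := hP.cover
  zero A _ _ _ S m f hS := hP.zero A S m f hS.ge

theorem covP_of_covD {P : Sch k → Prop} (hP : CovD P) :
    CovP True (fun S : Finset k => S.card = 2) P where
  toBnd := hP.toBnd
  cov A _ _ _ S _ hS m f hA :=
    ⟨hP.zero A S m f hS hA, hP.cover A S m f (Finset.card_pos.mp (by omega)) hA⟩

/-- Additive invariants. -/
theorem covD_additive {M : Type*} [AddCommGroup M] {δ : Sch k → ℤ → M} (h : IsAdditive δ) :
    CovD (Zero δ) where
  toBnd := bnd_additive h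
  cover A _ _ _ S m f hS hA h0 c := by
    have h2 := inv_cov (inv_of_additive h) S f (unitDiff_field S) hS c
    rw [h2, hA, h0, smul_zero, add_zero]
  zero A _ _ _ S m f hS hA hc c := by
    have h2 := inv_cov (inv_of_additive h) S f (unitDiff_field S)
      (Finset.card_pos.mp (by omega)) (c + m)
    rw [hA, hc, hS, zero_add, add_sub_cancel_right] at h2
    exact (one_smul ℕ _).symm.trans h2.symm

/-- The class itself has the closure properties. -/
theorem covD_built (d : ℕ) : CovD (DBuilt (k := k) d) where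
  iso {X Y} hX e h := .iso X Y hX e h
  total {Z X U} i j hX ht h1 h2 := .total Z X U i j hX ⟨ht.closed, ht.opened, ht.compl⟩ h1 h2
  opened {Z X U} i j hX ht h1 h2 := .opened Z X U i j hX ⟨ht.closed, ht.opened, ht.compl⟩ h1 h2
  closed {Z X U} i j hX ht h1 h2 := .closed Z X U i j hX ⟨ht.closed, ht.opened, ht.compl⟩ h1 h2
  space n := .space n
  jouanolou A _ _ _ m f U j h1 h2 h3 := .base A m f U ⟨j, h1, h2⟩ h3
  bundle A _ _ _ m f U j h1 h2 h3 := .bundle A m f U ⟨j, h1, h2⟩ h3
  torus A _ _ _ h := .torus A h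
  cover A _ _ _ S m f h1 h2 h3 := .cover A S m f h1 h2 h3
  zero A _ _ _ S m f h1 h2 h3 := .zero A S m f h1 h2 h3

/-- The properties with the closure properties which are true in dimension at most `d` are true for the
class. -/
theorem of_dbuilt {P : Sch k → Prop} (hP : CovD P) {d : ℕ}
    (h : ∀ X : Sch k, FT True X → topologicalKrullDim X.left ≤ d → P X) (X : Sch k)
    (hX : DBuilt d X) : P X := by
  induction hX with
  | dim X h1 h2 => exact h X h1 h2
  | space n => exact hP.space n
  | iso X Y h1 h2 _ ih => exact hP.iso h1 h2 ih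
  | total Z X U i j h1 h2 _ _ ih1 ih2 => exact hP.total i j h1 ⟨h2.1, h2.2.1, h2.2.2⟩ ih1 ih2
  | opened Z X U i j h1 h2 _ _ ih1 ih2 => exact hP.opened i j h1 ⟨h2.1, h2.2.1, h2.2.2⟩ ih1 ih2
  | closed Z X U i j h1 h2 _ _ ih1 ih2 => exact hP.closed i j h1 ⟨h2.1, h2.2.1, h2.2.2⟩ ih1 ih2
  | bundle A m f U h1 _ ih =>
    obtain ⟨j, h1, h2⟩ := h1
    exact hP.bundle A m f U j h1 h2 ih
  | base A m f U h1 _ ih =>
    obtain ⟨j, h1, h2⟩ := h1
    exact hP.jouanolou A m f U j h1 h2 ih
  | torus A _ ih => exact hP.torus A ih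
  | cover A S m f h1 _ _ ih1 ih2 => exact hP.cover A S m f h1 ih1 ih2
  | zero A S m f h1 _ _ ih1 ih2 => exact hP.zero A S m f h1 ih1 ih2

/-- Dimension at most `d` and the class. -/
theorem dim_iff_dbuilt {P : Sch k → Prop} (hP : CovD P) (d : ℕ) :
    (∀ X : Sch k, FT True X → topologicalKrullDim X.left ≤ d → P X) ↔
      ∀ X : Sch k, DBuilt d X → P X :=
  ⟨fun h => of_dbuilt hP h, fun h X h1 h2 => h X (.dim X h1 h2)⟩

/-- Coverings and zero schemes in few variables or of small dimension are in the class. -/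
theorem dbuilt_small {d : ℕ} (S : Finset k) (hS : S.Nonempty) {n m : ℕ}
    (f : Fin m → MvPolynomial (Fin n) k) (hn : n ≤ d + 1 ∨ topologicalKrullDim (zeroS f).left ≤ d) :
    DBuilt d (zeroS f) ∧ DBuilt d (covS S f) := by
  have h1 : DBuilt d (zeroS f) := by
    rcases hn with hn | hn
    · exact zeroS_dim (covP_of_covD (covD_built d)) (fun X => .dim X) hn f
    · exact .dim _ (ft_aff True) hn
  exact ⟨h1, .cover _ S m f hS (.space n) h1⟩

/-- The coverings given by the trilinear forms with few variables in the third block are in the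
class. -/
theorem dbuilt_form [PerfectField k] {d : ℕ} (S : Finset k) (hS : S.Nonempty) {a b c : ℕ}
    (t : Fin a → Fin b → Fin c → k) (hc : c ≤ d + 2) : DBuilt d (covS S (bq t)) := by
  have h1 : DBuilt d (zeroS (bq t)) :=
    (Pool.Agent.N882.UE.dim_bil (covD_built d).toBnd d).mp (fun X => .dim X) a b c t hc
  exact .cover _ S c (bq t) hS (iso_alg (covD_built d).toUni
    (renameEquiv k (Fintype.equivFin (Fin a ⊕ Fin b)).symm) (.space _)) h1

section lists

variable [PerfectField k] {Θ : Sort*} {Φ : Θ → Sch k → Prop} (hΦ : ∀ θ, CovD (Φ θ))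

include hΦ

theorem covD_lst (T : Sch k → Prop) : CovD (Lst Φ T) where
  toBnd := bnd_lst fun θ => (hΦ θ).toBnd
  cover A _ _ _ S m f h := lst_two fun θ => (hΦ θ).cover A S m f h
  zero A _ _ _ S m f h := lst_two fun θ => (hΦ θ).zero A S m f h

/-- Finitely many double coverings decide. -/
theorem lst_double (S : Finset k) (hS : S.card = 2) {d : ℕ} (X : Sch k)
    (hX : DBuilt d X) : Lst Φ (IsDouble S (d + 2)) X :=
  of_dbuilt (covD_lst hΦ _) (fun X hX hd => lst_forms (fun θ => covP_of_covD (hΦ θ)) S hS d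
    (fun a b c t hc => lst_self ⟨a, b, c, t, hc, rfl⟩) X hX hd) X hX

/-- Finitely many varieties of the class decide. -/
theorem lst_class {Q : Sch k → Prop} (hQ : IsClass Q) {d : ℕ} (hM : ModelsIn Q d) (X : Sch k)
    (hX : DBuilt d X) :
    Lst Φ (fun Y => Q Y ∧ topologicalKrullDim Y.left ≤ d) X :=
  of_dbuilt (covD_lst hΦ _) (fun X hX hd => Pool.Agent.H89.Dev.devissage
    (covD_lst hΦ _).toBnd hQ hM (fun Y h1 h2 => lst_self ⟨h1, h2⟩) X hX hd) X hX

end lists

end Pool.Agent.H95.DC
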