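import Pool.Agent.H95.DC.Defs
import Pool.Agent.H39.Bei.Defs

/-!
# Schemes built from schemes of small dimension by coverings: definition
-/

set_option autoImplicit false

open CategoryTheory AlgebraicGeometry MvPolynomial

namespace Pool.Agent.H95.DC

open Pool.Agent.Y116.UV Pool.Agent.H39.Bei

section

variable (k : Type) [Field k] {A : Type} [CommRing A] [Algebra k A] {m : ℕ} (f : Fin m → A)

/-- The covering `∏_{c ∈ S} (w - c) = ∑ x_l f_l` of `𝔸^m_A`, with the coordinates `x_1, …, x_m`. -/
noncomputable def relCov (S : Finset k) : Sch k := aff k (Cov S f)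

/-- The closed subscheme `f = 0` of `Spec A`. -/
noncomputable def relZero : Sch k := aff k (A ⧸ Ideal.span (Set.range f))

/-- The affine bundle `Spec A[w_1, …, w_m] / (∑ f_l w_l - 1)` over the open subscheme of `Spec A` where
`f_1, …, f_m` are not all zero. -/
noncomputable def relJou : Sch k := aff k (Jou f)

end

/-- The smallest class of schemes over the field `k` which contains the separated schemes of finite type
of dimension at most `d` (`dim`) and the affine spaces (`space`), is closed under isomorphisms, and has
the following properties.

* If two of `X`, `Z`, `U` are in the class, then the third is in the class, for a closed subscheme `Z` of a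
  separated scheme `X` of finite type and its complement `U` (`total`, `opened`, `closed`).
* For functions `f_1, …, f_m` on `Spec A` the scheme `U` where they are not all zero is in the class if
  and only if the affine bundle `relJou k f → U` is in the class (`bundle`, `base`).
* If `Spec A × 𝔾_m` is in the class, then `Spec A` is in the class (`torus`).
* If `Spec A` and its closed subscheme `f_1 = … = f_m = 0` are in the class, then the covering
  `∏_{c ∈ S} (w - c) = ∑ x_l f_l` of `𝔸^m_A` is in the class, for every finite non-empty `S ⊆ k`; if
  `Spec A` and the double covering for some `S` with two elements are in the class, then the closed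
  subscheme `f = 0` of `Spec A` is in the class (`cover`, `zero`). -/
inductive DBuilt {k : Type} [Field k] (d : ℕ) : Sch k → Prop
  | dim (X : Sch k) : FT True X → topologicalKrullDim X.left ≤ d → DBuilt d X
  | space (n : ℕ) : DBuilt d (aff k (MvPolynomial (Fin n) k))
  | iso (X Y : Sch k) : FT True X → Nonempty (X ≅ Y) → DBuilt d X → DBuilt d Y
  | total (Z X U : Sch k) (i : Z ⟶ X) (j : U ⟶ X) : FT True X → Decomp i j → DBuilt d Z →
      DBuilt d U → DBuilt d X
  | opened (Z X U : Sch k) (i : Z ⟶ X) (j : U ⟶ X) : FT True X → Decomp i j → DBuilt d Z →
      DBuilt d X → DBuilt d U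
  | closed (Z X U : Sch k) (i : Z ⟶ X) (j : U ⟶ X) : FT True X → Decomp i j → DBuilt d X →
      DBuilt d U → DBuilt d Z
  | bundle (A : Type) [CommRing A] [Algebra k A] [Algebra.FiniteType k A] (m : ℕ) (f : Fin m → A)
      (U : Sch k) : Compl f U → DBuilt d U → DBuilt d (relJou k f)
  | base (A : Type) [CommRing A] [Algebra k A] [Algebra.FiniteType k A] (m : ℕ) (f : Fin m → A)
      (U : Sch k) : Compl f U → DBuilt d (relJou k f) → DBuilt d U
  | torus (A : Type) [CommRing A] [Algebra k A] [Algebra.FiniteType k A] :
      DBuilt d (aff k (LaurentPolynomial A)) → DBuilt d (aff k A)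
  | cover (A : Type) [CommRing A] [Algebra k A] [Algebra.FiniteType k A] (S : Finset k) (m : ℕ)
      (f : Fin m → A) : S.Nonempty → DBuilt d (aff k A) → DBuilt d (relZero k f) →
      DBuilt d (relCov k f S)
  | zero (A : Type) [CommRing A] [Algebra k A] [Algebra.FiniteType k A] (S : Finset k) (m : ℕ)
      (f : Fin m → A) : S.card = 2 → DBuilt d (aff k A) → DBuilt d (relCov k f S) →
      DBuilt d (relZero k f)

/-- `X` is the double covering `(w - α)(w - β) = t(x, y, z)` of an affine space over `k`, where `α` and
`β` are the elements of `S`, for a trilinear form `t` over `k` with at most `m` variables `z`. -/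
def IsDouble {k : Type} [Field k] (S : Finset k) (m : ℕ) (X : Sch k) : Prop :=
  ∃ (a b c : ℕ) (t : Fin a → Fin b → Fin c → k), c ≤ m ∧ X = covS S (bq t)

end Pool.Agent.H95.DC
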