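import Pool.Agent.H89.L.Y116_UV_Defs

/-!
# Coverings `∏_{c ∈ S} (w - c) = ∑ x_l f_l` of affine spaces: definitions
-/

set_option autoImplicit false

open CategoryTheory AlgebraicGeometry MvPolynomial

namespace Pool.Agent.H95.DC

open Pool.Agent.Y116.UV

variable {R : Type} [CommRing R]

/-- The linear form `∑ f_l x_l` with coefficients `f_l ∈ A`. -/
noncomputable def lin {A : Type} [CommRing A] {m : ℕ} (f : Fin m → A) : MvPolynomial (Fin m) A :=
  ∑ l, C (f l) * X l

/-- The polynomial `∏_{c ∈ S} (w - c)` over the `R`-algebra `D`. -/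
noncomputable def sp (D : Type) [CommRing D] [Algebra R D] (S : Finset R) : Polynomial D :=
  ∏ c ∈ S, (Polynomial.X - Polynomial.C (algebraMap R D c))

/-- The ring `A[x_1, …, x_m][w] / (∏_{c ∈ S} (w - c) - ∑ f_l x_l)`. -/
abbrev Cov {A : Type} [CommRing A] [Algebra R A] (S : Finset R) {m : ℕ} (f : Fin m → A) : Type :=
  AdjoinRoot (sp (MvPolynomial (Fin m) A) S - Polynomial.C (lin f))

/-- The covering `∏_{c ∈ S} (w - c) = ∑ x_l f_l(z)` of the affine space with the coordinates `z_s`,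
`s ∈ σ`, and `x_1, …, x_m`. -/
noncomputable def covS (S : Finset R) {σ : Type} {m : ℕ} (f : Fin m → MvPolynomial σ R) : Sch R :=
  aff R (Cov S f)

/-- The closed subscheme `f_1 = … = f_m = 0` of the affine space with the coordinates `σ`. -/
noncomputable def zeroS {σ : Type} {m : ℕ} (f : Fin m → MvPolynomial σ R) : Sch R :=
  aff R (MvPolynomial σ R ⧸ Ideal.span (Set.range f))

/-- The differences of different elements of `S` are units. -/
def UnitDiff (S : Finset R) : Prop := ∀ c ∈ S, ∀ c' ∈ S, c ≠ c' → IsUnit (c - c')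

/-- The bilinear forms `∑ t_ijl x_i y_j`, `l = 1, …, c`. -/
noncomputable def bq {a b c : ℕ} (t : Fin a → Fin b → Fin c → R) (l : Fin c) :
    MvPolynomial (Fin a ⊕ Fin b) R :=
  ∑ i, ∑ j, C (t i j l) * X (Sum.inl i) * X (Sum.inr j)

/-- The bilinear forms `∑_{(i, j) ∈ E_l} x_i y_j`, `l = 1, …, c`. -/
noncomputable def bf (R : Type) [CommRing R] {a b c : ℕ} (E : Fin c → Finset (Fin a × Fin b))
    (l : Fin c) : MvPolynomial (Fin a ⊕ Fin b) R :=
  ∑ e ∈ E l, X (Sum.inl e.1) * X (Sum.inr e.2)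

end Pool.Agent.H95.DC
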