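import Mathlib

/-!
# Morphisms with affine spaces as fibres: definition
-/

set_option autoImplicit false

open CategoryTheory CategoryTheory.Limits AlgebraicGeometry

namespace Pool.Agent.H95.DC

/-- All fibres of `q : X ⟶ Y` are affine spaces of dimension `r`: for every point `y` the fibre
`q⁻¹(y)` is isomorphic, over the residue field `κ(y)`, to the affine space `𝔸^r` over `κ(y)`. -/
def AffineFibres {X Y : Scheme.{0}} (q : X ⟶ Y) (r : ℕ) : Prop :=
  ∀ y : Y, Nonempty (Over.mk (q.fiberToSpecResidueField y) ≅
    Over.mk (𝔸(Fin r; Spec (Y.residueField y)) ↘ Spec (Y.residueField y)))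

end Pool.Agent.H95.DC
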