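import Pool.Agent.H95.DC.Fib
import Pool.Agent.H95.DC.Basic

/-!
# The fibres of the open part of the coverings
-/

set_option autoImplicit false

open CategoryTheory CategoryTheory.Limits AlgebraicGeometry MvPolynomial TensorProduct

namespace Pool.Agent.H95.DC

variable {R A : Type} [CommRing R] [CommRing A] [Algebra R A]

section fibre

/-- kernels of retractions -/
lemma ker_of_retract {T M : Type} [CommRing T] [CommRing M] (ψ : T →+* M) (φ : M →+* T)
    (e : T) (h2 : ψ e = 0) (h3 : ∀ t, φ (ψ t) - t ∈ Ideal.span {e}) :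
    RingHom.ker ψ = Ideal.span {e} := by
  apply le_antisymm
  · intro t ht
    have h := h3 t
    rw [RingHom.mem_ker] at ht
    rw [ht, map_zero, zero_sub] at h
    exact (Ideal.neg_mem_iff _).mp h
  · rw [Ideal.span_singleton_le_iff_mem]
    exact h2

variable {K : Type} [Field K] [Algebra A K] (S' : Finset R) (c₀ : R) (hc : c₀ ∉ S') {m : ℕ}
  (f : Fin m → A)

/-- the values of the coefficients in `K` -/
noncomputable def kc (K : Type) [Field K] [Algebra A K] (c : R) : K :=
  algebraMap A K (algebraMap R A c)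

open Classical in
/-- the coordinates on the fibre -/
noncomputable def fx (K : Type) [Field K] [Algebra A K] (S : Finset R) {m : ℕ} (f : Fin m → A)
    (i : Fin m) (l : Fin m) : MvPolynomial (Fin m) K :=
  if l = i then C (algebraMap A K (f i))⁻¹ * (∏ c ∈ S, (X i - C (kc (A := A) K c)) -
    ∑ l ∈ Finset.univ.erase i, C (algebraMap A K (f l)) * X l) else X l

lemma fx_rel (S : Finset R) (i : Fin m) (hi : algebraMap A K (f i) ≠ 0) :
    ∏ c ∈ S, (X i - algebraMap A (MvPolynomial (Fin m) K) (algebraMap R A c)) =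
      ∑ l, algebraMap A (MvPolynomial (Fin m) K) (f l) * fx K S f i l := by
  classical
  have h1 : ∀ a : A, algebraMap A (MvPolynomial (Fin m) K) a = C (algebraMap A K a) := fun a => by
    rw [IsScalarTower.algebraMap_apply A K (MvPolynomial (Fin m) K)]
    rfl
  simp_rw [h1]
  rw [← Finset.add_sum_erase _ _ (Finset.mem_univ i), fx, if_pos rfl, ← mul_assoc, ← C_mul,
    mul_inv_cancel₀ hi, C_1, one_mul]
  have h2 : ∑ l ∈ Finset.univ.erase i, C (algebraMap A K (f l)) * fx K S f i l =
      ∑ l ∈ Finset.univ.erase i, C (algebraMap A K (f l)) * X l := by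
    apply Finset.sum_congr rfl
    intro l hl
    rw [fx, if_neg (Finset.ne_of_mem_erase hl)]
  rw [h2, sub_add_cancel]
  rfl

/-- the fibre over a point where `f_i ≠ 0` -/
noncomputable def psi1 (S : Finset R) (i : Fin m) (hi : algebraMap A K (f i) ≠ 0) :
    K ⊗[A] Cov S f →ₐ[K] MvPolynomial (Fin m) K :=
  Algebra.TensorProduct.lift (Algebra.ofId K _)
    (covLift S f (fx K S f i) (X i) (fx_rel f S i hi)) fun _ _ => Commute.all _ _

open Classical in
/-- the inverse -/
noncomputable def phi1 (S : Finset R) (i : Fin m) : MvPolynomial (Fin m) K →ₐ[K] K ⊗[A] Cov S f :=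
  aeval fun l => 1 ⊗ₜ (if l = i then cw S f else cx S f l)

lemma psi1_right (S : Finset R) (i : Fin m) (hi : algebraMap A K (f i) ≠ 0) (b : Cov S f) :
    psi1 f S i hi (Algebra.TensorProduct.includeRight b) =
      covLift S f (fx K S f i) (X i) (fx_rel f S i hi) b := by
  rw [psi1, Algebra.TensorProduct.includeRight_apply, Algebra.TensorProduct.lift_tmul, map_one,
    one_mul]

lemma psi1_phi1 (S : Finset R) (i : Fin m) (hi : algebraMap A K (f i) ≠ 0) :
    (psi1 f S i hi).comp (phi1 f S i) = AlgHom.id K _ := by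
  classical
  apply MvPolynomial.algHom_ext
  intro l
  have h : phi1 (K := K) f S i (X l) =
      Algebra.TensorProduct.includeRight (if l = i then cw S f else cx S f l) := by
    rw [phi1, aeval_X]
    rfl
  rw [AlgHom.comp_apply, h, psi1_right, AlgHom.id_apply]
  split_ifs with h2
  · rw [covLift_w, h2]
  · rw [covLift_x, fx, if_neg h2]

lemma right_alg (S : Finset R) (a : A) :
    (Algebra.TensorProduct.includeRight : Cov S f →ₐ[A] K ⊗[A] Cov S f)
      (algebraMap A (Cov S f) a) = algebraMap K (K ⊗[A] Cov S f) (algebraMap A K a) := by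
  rw [AlgHom.commutes, ← IsScalarTower.algebraMap_apply]

lemma right_rel (S : Finset R) :
    ∏ c ∈ S, ((Algebra.TensorProduct.includeRight : Cov S f →ₐ[A] K ⊗[A] Cov S f) (cw S f) -
      algebraMap K (K ⊗[A] Cov S f) (kc (A := A) K c)) =
    ∑ l, algebraMap K (K ⊗[A] Cov S f) (algebraMap A K (f l)) *
      (Algebra.TensorProduct.includeRight : Cov S f →ₐ[A] K ⊗[A] Cov S f) (cx S f l) := by
  have h := congrArg (Algebra.TensorProduct.includeRight : Cov S f →ₐ[A] K ⊗[A] Cov S f)
    (cov_rel S f)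
  rw [map_prod, map_sum] at h
  refine Eq.trans (Finset.prod_congr rfl fun c _ => ?_) (h.trans
    (Finset.sum_congr rfl fun l _ => ?_))
  · rw [map_sub, IsScalarTower.algebraMap_apply R A (Cov S f), right_alg]
    rfl
  · rw [map_mul, right_alg]

lemma phi1_psi1 (S : Finset R) (i : Fin m) (hi : algebraMap A K (f i) ≠ 0) :
    (phi1 f S i).comp (psi1 f S i hi) = AlgHom.id K _ := by
  classical
  have hX : ∀ l, phi1 (K := K) f S i (X l) =
      (Algebra.TensorProduct.includeRight : Cov S f →ₐ[A] K ⊗[A] Cov S f)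
        (if l = i then cw S f else cx S f l) := by
    intro l
    rw [phi1, aeval_X]
    rfl
  apply Algebra.TensorProduct.ext
  · apply AlgHom.ext
    intro a
    exact ((((phi1 f S i).comp (psi1 f S i hi)).comp
      Algebra.TensorProduct.includeLeft).commutes a).trans
        (((AlgHom.id K (K ⊗[A] Cov S f)).comp
          (Algebra.TensorProduct.includeLeft : K →ₐ[K] K ⊗[A] Cov S f)).commutes a).symm
  · apply cov_ext
    · intro l
      change phi1 (K := K) f S i (psi1 f S i hi (Algebra.TensorProduct.includeRight (cx S f l))) =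
        (Algebra.TensorProduct.includeRight : Cov S f →ₐ[A] K ⊗[A] Cov S f) (cx S f l)
      rw [psi1_right, covLift_x]
      by_cases hl : l = i
      · subst hl
        have hC : ∀ a : K, phi1 (K := K) f S l (C a) = algebraMap K (K ⊗[A] Cov S f) a :=
          fun a => (phi1 f S l).commutes a
        have h1 : phi1 (K := K) f S l (∏ c ∈ S, (X l - C (kc (A := A) K c))) =
            ∑ j, algebraMap K (K ⊗[A] Cov S f) (algebraMap A K (f j)) *
              (Algebra.TensorProduct.includeRight : Cov S f →ₐ[A] K ⊗[A] Cov S f) (cx S f j) := by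
          rw [← right_rel, map_prod]
          refine Finset.prod_congr rfl fun c _ => ?_
          rw [map_sub, hC, hX, if_pos rfl]
        have h2 : phi1 (K := K) f S l
            (∑ j ∈ Finset.univ.erase l, C (algebraMap A K (f j)) * X j) =
            ∑ j ∈ Finset.univ.erase l, algebraMap K (K ⊗[A] Cov S f) (algebraMap A K (f j)) *
              (Algebra.TensorProduct.includeRight : Cov S f →ₐ[A] K ⊗[A] Cov S f) (cx S f j) := by
          rw [map_sum]
          refine Finset.sum_congr rfl fun j hj => ?_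
          rw [map_mul, hC, hX, if_neg (Finset.ne_of_mem_erase hj)]
        rw [fx, if_pos rfl, map_mul, map_sub, h1, h2, hC,
          ← Finset.add_sum_erase _ _ (Finset.mem_univ l), add_sub_cancel_right, ← mul_assoc,
          ← map_mul, inv_mul_cancel₀ hi, map_one, one_mul]
      · rw [fx, if_neg hl, hX, if_neg hl]
    · change phi1 (K := K) f S i (psi1 f S i hi (Algebra.TensorProduct.includeRight (cw S f))) =
        (Algebra.TensorProduct.includeRight : Cov S f →ₐ[A] K ⊗[A] Cov S f) (cw S f)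
      rw [psi1_right, covLift_w, hX, if_pos rfl]

lemma algA (a : A) : algebraMap A (MvPolynomial (Fin m) K) a = C (algebraMap A K a) := by
  rw [IsScalarTower.algebraMap_apply A K (MvPolynomial (Fin m) K)]
  rfl

lemma rel2 (hf : ∀ l, algebraMap A K (f l) = 0) :
    ∏ c ∈ Finset.cons c₀ S' hc, ((C (kc (A := A) K c₀) : MvPolynomial (Fin m) K) -
      algebraMap A (MvPolynomial (Fin m) K) (algebraMap R A c)) =
      ∑ l, algebraMap A (MvPolynomial (Fin m) K) (f l) * X l := by
  rw [Finset.prod_eq_zero (Finset.mem_cons_self c₀ S')]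
  · symm
    apply Finset.sum_eq_zero
    intro l _
    rw [algA, hf, C_0, zero_mul]
  · rw [algA, kc, sub_self]

/-- the fibre over a point where all `f_l` vanish -/
noncomputable def psi2 (hf : ∀ l, algebraMap A K (f l) = 0) :
    K ⊗[A] Cov (Finset.cons c₀ S' hc) f →ₐ[K] MvPolynomial (Fin m) K :=
  Algebra.TensorProduct.lift (Algebra.ofId K _)
    (covLift (Finset.cons c₀ S' hc) f X (C (kc (A := A) K c₀)) (rel2 S' c₀ hc f hf))
      fun _ _ => Commute.all _ _

/-- a section -/
noncomputable def phi2 (S : Finset R) : MvPolynomial (Fin m) K →ₐ[K] K ⊗[A] Cov S f :=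
  aeval fun l => 1 ⊗ₜ cx S f l

lemma psi2_right (hf : ∀ l, algebraMap A K (f l) = 0) (b : Cov (Finset.cons c₀ S' hc) f) :
    psi2 S' c₀ hc f hf (Algebra.TensorProduct.includeRight b) =
      covLift (Finset.cons c₀ S' hc) f X (C (kc (A := A) K c₀)) (rel2 S' c₀ hc f hf) b := by
  rw [psi2, Algebra.TensorProduct.includeRight_apply, Algebra.TensorProduct.lift_tmul, map_one,
    one_mul]

lemma phi2_X (S : Finset R) (l : Fin m) : phi2 (K := K) f S (X l) =
    (Algebra.TensorProduct.includeRight : Cov S f →ₐ[A] K ⊗[A] Cov S f) (cx S f l) := by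
  rw [phi2, aeval_X]
  rfl

lemma psi2_phi2 (hf : ∀ l, algebraMap A K (f l) = 0) :
    (psi2 S' c₀ hc f hf).comp (phi2 f (Finset.cons c₀ S' hc)) = AlgHom.id K _ := by
  apply MvPolynomial.algHom_ext
  intro l
  rw [AlgHom.comp_apply, phi2_X, psi2_right, covLift_x, AlgHom.id_apply]

/-- `h(w)` in the fibre -/
noncomputable def hw (K : Type) [Field K] [Algebra A K] (S' : Finset R) (c₀ : R) (hc : c₀ ∉ S')
    {m : ℕ} (f : Fin m → A) : K ⊗[A] Cov (Finset.cons c₀ S' hc) f :=
  ∏ c ∈ S', ((Algebra.TensorProduct.includeRight : _ →ₐ[A] K ⊗[A] Cov (Finset.cons c₀ S' hc) f)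
    (cw (Finset.cons c₀ S' hc) f) - algebraMap K _ (kc (A := A) K c))

/-- `w - c₀` in the fibre -/
noncomputable def w0 (K : Type) [Field K] [Algebra A K] (S' : Finset R) (c₀ : R) (hc : c₀ ∉ S')
    {m : ℕ} (f : Fin m → A) : K ⊗[A] Cov (Finset.cons c₀ S' hc) f :=
  (Algebra.TensorProduct.includeRight : _ →ₐ[A] K ⊗[A] Cov (Finset.cons c₀ S' hc) f)
    (cw (Finset.cons c₀ S' hc) f) - algebraMap K _ (kc (A := A) K c₀)

/-- `h(c₀)` -/
noncomputable def h0 (A : Type) [CommRing A] [Algebra R A] (K : Type) [Field K] [Algebra A K]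
    (S' : Finset R) (c₀ : R) : K := ∏ c ∈ S', (kc (A := A) K c₀ - kc (A := A) K c)

lemma h0_ne (hD : UnitDiff (Finset.cons c₀ S' hc)) : h0 A K S' c₀ ≠ 0 := by
  rw [h0, Finset.prod_ne_zero_iff]
  intro c hc'
  have h1 : IsUnit (c₀ - c) := by
    refine hD c₀ (Finset.mem_cons_self _ _) c (Finset.mem_cons_of_mem hc') ?_
    rintro rfl
    exact hc hc'
  have h2 := h1.map ((algebraMap A K).comp (algebraMap R A))
  rw [map_sub] at h2
  exact h2.ne_zero

lemma w0_hw (hf : ∀ l, algebraMap A K (f l) = 0) : w0 K S' c₀ hc f * hw K S' c₀ hc f = 0 := by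
  have h := right_rel (K := K) f (Finset.cons c₀ S' hc)
  rw [Finset.prod_cons] at h
  refine h.trans (Finset.sum_eq_zero fun l _ => ?_)
  rw [hf, map_zero, zero_mul]

lemma w0_dvd : w0 K S' c₀ hc f ∣ hw K S' c₀ hc f - algebraMap K _ (h0 A K S' c₀) := by
  let T := K ⊗[A] Cov (Finset.cons c₀ S' hc) f
  let p : Polynomial T := ∏ c ∈ S', (Polynomial.X - Polynomial.C (algebraMap K T (kc (A := A) K c)))
  have h := Polynomial.sub_dvd_eval_sub ((Algebra.TensorProduct.includeRight : _ →ₐ[A] T)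
    (cw (Finset.cons c₀ S' hc) f)) (algebraMap K T (kc (A := A) K c₀)) p
  have h1 : ∀ t : T, p.eval t = ∏ c ∈ S', (t - algebraMap K T (kc (A := A) K c)) := by
    intro t
    simp [p, Polynomial.eval_prod]
  rw [h1, h1] at h
  have h2 : algebraMap K T (h0 A K S' c₀) =
      ∏ c ∈ S', (algebraMap K T (kc (A := A) K c₀) - algebraMap K T (kc (A := A) K c)) := by
    rw [h0, map_prod]
    simp_rw [map_sub]
  rw [hw, h2]
  exact h

/-- the idempotent `1 - h(w) / h(c₀)` -/
noncomputable def ee (K : Type) [Field K] [Algebra A K] (S' : Finset R) (c₀ : R) (hc : c₀ ∉ S')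
    {m : ℕ} (f : Fin m → A) : K ⊗[A] Cov (Finset.cons c₀ S' hc) f :=
  1 - algebraMap K _ (h0 A K S' c₀)⁻¹ * hw K S' c₀ hc f

lemma w0_dvd_ee (hD : UnitDiff (Finset.cons c₀ S' hc)) : w0 K S' c₀ hc f ∣ ee K S' c₀ hc f := by
  obtain ⟨z, hz⟩ := w0_dvd (K := K) S' c₀ hc f
  refine ⟨- (algebraMap K _ (h0 A K S' c₀)⁻¹ * z), ?_⟩
  rw [ee, sub_eq_iff_eq_add.mp hz, mul_add, ← map_mul, inv_mul_cancel₀ (h0_ne S' c₀ hc hD), map_one]
  ring

lemma w0_ee (hf : ∀ l, algebraMap A K (f l) = 0) :
    w0 K S' c₀ hc f * ee K S' c₀ hc f = w0 K S' c₀ hc f := by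
  rw [ee, mul_sub, mul_one, mul_left_comm, w0_hw S' c₀ hc f hf, mul_zero, sub_zero]

lemma idem_ee (hD : UnitDiff (Finset.cons c₀ S' hc)) (hf : ∀ l, algebraMap A K (f l) = 0) : IsIdempotentElem (ee K S' c₀ hc f) := by
  obtain ⟨z, hz⟩ := w0_dvd_ee (K := K) S' c₀ hc f hD
  have h : ee K S' c₀ hc f * ee K S' c₀ hc f = z * (w0 K S' c₀ hc f * ee K S' c₀ hc f) := by
    nth_rw 1 [hz]
    ring
  rw [IsIdempotentElem, h, w0_ee S' c₀ hc f hf, mul_comm, ← hz]

lemma psi2_ee (hD : UnitDiff (Finset.cons c₀ S' hc)) (hf : ∀ l, algebraMap A K (f l) = 0) :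
    psi2 S' c₀ hc f hf (ee K S' c₀ hc f) = 0 := by
  obtain ⟨z, hz⟩ := w0_dvd_ee (K := K) S' c₀ hc f hD
  have h : psi2 S' c₀ hc f hf (w0 K S' c₀ hc f) = 0 := by
    rw [w0, map_sub, psi2_right, covLift_w, AlgHom.commutes]
    exact sub_self _
  rw [hz, map_mul, h, zero_mul]

lemma ker_psi2 (hD : UnitDiff (Finset.cons c₀ S' hc)) (hf : ∀ l, algebraMap A K (f l) = 0) :
    RingHom.ker (psi2 S' c₀ hc f hf).toRingHom = Ideal.span {ee K S' c₀ hc f} := by
  refine ker_of_retract _ (phi2 f (Finset.cons c₀ S' hc)).toRingHom _ (psi2_ee S' c₀ hc f hD hf) ?_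
  have h : (Ideal.Quotient.mkₐ K (Ideal.span {ee K S' c₀ hc f})).comp
      ((phi2 f (Finset.cons c₀ S' hc)).comp (psi2 S' c₀ hc f hf)) =
      Ideal.Quotient.mkₐ K (Ideal.span {ee K S' c₀ hc f}) := by
    apply Algebra.TensorProduct.ext
    · ext
    · apply cov_ext
      · intro l
        change Ideal.Quotient.mk _ (phi2 f (Finset.cons c₀ S' hc) (psi2 S' c₀ hc f hf
          (Algebra.TensorProduct.includeRight (cx _ f l)))) = Ideal.Quotient.mk _
            (Algebra.TensorProduct.includeRight (cx _ f l))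
        rw [psi2_right, covLift_x, phi2_X]
      · change Ideal.Quotient.mk _ (phi2 f (Finset.cons c₀ S' hc) (psi2 S' c₀ hc f hf
          (Algebra.TensorProduct.includeRight (cw _ f)))) = Ideal.Quotient.mk _
            (Algebra.TensorProduct.includeRight (cw _ f))
        rw [psi2_right, covLift_w]
        have h1 : phi2 (K := K) f (Finset.cons c₀ S' hc) (C (kc (A := A) K c₀)) =
            algebraMap K _ (kc (A := A) K c₀) := (phi2 f _).commutes _
        rw [h1, eq_comm, Ideal.Quotient.eq, Ideal.mem_span_singleton]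
        exact ⟨w0 K S' c₀ hc f, by rw [mul_comm, w0_ee S' c₀ hc f hf]; rfl⟩
  intro t
  rw [← Ideal.Quotient.eq]
  exact DFunLike.congr_fun h t

/-- range of the spectrum of a surjective map -/
lemma range_spec {T M : Type} [CommRing T] [CommRing M] (ψ : T →+* M)
    (h : Function.Surjective ψ) (e : T) (he : RingHom.ker ψ = Ideal.span {e}) :
    Set.range (Spec.map (CommRingCat.ofHom ψ)) = {y : PrimeSpectrum T | e ∈ y.asIdeal} := by
  have h1 : Set.range (Spec.map (CommRingCat.ofHom ψ)) = Set.range (PrimeSpectrum.comap ψ) := rfl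
  rw [h1, range_comap_of_surjective _ ψ h, he]
  ext y
  change (Ideal.span {e} : Set T) ⊆ y.asIdeal ↔ e ∈ y.asIdeal
  exact Ideal.span_singleton_le_iff_mem _

/-- an idempotent in a prime ideal -/
lemma idem_mem {T : Type} [CommRing T] {e g : T} (he : IsIdempotentElem e) (u : T)
    (hu : 1 - e = u * g) (hu' : IsUnit u) (y : Ideal T) (hy : y.IsPrime) : e ∈ y ↔ g ∉ y := by
  constructor
  · intro h hg
    apply hy.ne_top
    rw [Ideal.eq_top_iff_one]
    have h1 : (1 : T) = e + u * g := by rw [← hu]; ring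
    rw [h1]
    exact y.add_mem h (y.mul_mem_left _ hg)
  · intro h
    have h1 : e * (1 - e) ∈ y := by
      rw [mul_sub, mul_one, he.eq, sub_self]
      exact y.zero_mem
    rcases hy.mem_or_mem h1 with h2 | h2
    · exact h2
    · rw [hu] at h2
      rcases hy.mem_or_mem h2 with h3 | h3
      · exact absurd (y.eq_top_of_isUnit_mem h3 hu') hy.ne_top
      · exact absurd h3 h

/-- The fibres of the open part of the cover over the spectrum of `A` are affine spaces. -/
theorem cov_fibres (hD : UnitDiff (Finset.cons c₀ S' hc))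
    (U : (Spec (CommRingCat.of (Cov (Finset.cons c₀ S' hc) f))).Opens)
    (hU : ∀ x : PrimeSpectrum (Cov (Finset.cons c₀ S' hc) f),
      x ∈ (U : Set (Spec (CommRingCat.of (Cov (Finset.cons c₀ S' hc) f)))) ↔
      ¬ ((∀ l, algebraMap A _ (f l) ∈ x.asIdeal) ∧
        ∏ c ∈ S', (cw _ f - algebraMap R _ c) ∈ x.asIdeal)) :
    AffineFibres (U.ι ≫ Spec.map (CommRingCat.ofHom
      (algebraMap A (Cov (Finset.cons c₀ S' hc) f)))) m := by
  apply affineFibres_of
  intro K _ _
  have hpre : ∀ y : PrimeSpectrum (K ⊗[A] Cov (Finset.cons c₀ S' hc) f),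
      PrimeSpectrum.comap (Algebra.TensorProduct.includeRight :
        _ →ₐ[A] K ⊗[A] Cov (Finset.cons c₀ S' hc) f).toRingHom y ∈
          (U : Set (Spec (CommRingCat.of (Cov (Finset.cons c₀ S' hc) f)))) ↔
      ¬ ((∀ l, algebraMap K _ (algebraMap A K (f l)) ∈ y.asIdeal) ∧
        hw K S' c₀ hc f ∈ y.asIdeal) := by
    intro y
    have h1 := hU (PrimeSpectrum.comap (Algebra.TensorProduct.includeRight :
        _ →ₐ[A] K ⊗[A] Cov (Finset.cons c₀ S' hc) f).toRingHom y)
    refine h1.trans (not_congr (and_congr (forall_congr' fun l => ?_) ?_))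
    · change (Algebra.TensorProduct.includeRight :
        _ →ₐ[A] K ⊗[A] Cov (Finset.cons c₀ S' hc) f) (algebraMap A _ (f l)) ∈ y.asIdeal ↔ _
      rw [right_alg]
    · change (Algebra.TensorProduct.includeRight :
        _ →ₐ[A] K ⊗[A] Cov (Finset.cons c₀ S' hc) f)
          (∏ c ∈ S', (cw _ f - algebraMap R _ c)) ∈ y.asIdeal ↔ _
      have h2 : (Algebra.TensorProduct.includeRight :
        _ →ₐ[A] K ⊗[A] Cov (Finset.cons c₀ S' hc) f)
          (∏ c ∈ S', (cw _ f - algebraMap R _ c)) = hw K S' c₀ hc f := by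
        rw [map_prod, hw]
        refine Finset.prod_congr rfl fun c _ => ?_
        rw [map_sub, IsScalarTower.algebraMap_apply R A (Cov (Finset.cons c₀ S' hc) f), right_alg]
        rfl
      rw [h2]
  by_cases hf : ∀ l, algebraMap A K (f l) = 0
  · have hs : Function.Surjective (psi2 (K := K) S' c₀ hc f hf).toRingHom := fun z =>
      ⟨phi2 f (Finset.cons c₀ S' hc) z, DFunLike.congr_fun (psi2_phi2 S' c₀ hc f hf) z⟩
    have hk := ker_psi2 (K := K) S' c₀ hc f hD hf
    refine ⟨psi2 S' c₀ hc f hf, (isOpenImmersion_SpecMap_iff_of_surjective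
      (CommRingCat.ofHom (psi2 S' c₀ hc f hf).toRingHom) hs).mpr
        ⟨_, idem_ee S' c₀ hc f hD hf, hk⟩, ?_⟩
    rw [range_spec _ hs _ hk]
    ext y
    refine Iff.trans ?_ (hpre y).symm
    change ee K S' c₀ hc f ∈ y.asIdeal ↔ _
    rw [idem_mem (idem_ee S' c₀ hc f hD hf) (algebraMap K _ (h0 A K S' c₀)⁻¹) (sub_sub_cancel _ _)
      ((inv_ne_zero (h0_ne S' c₀ hc hD)).isUnit.map _) y.asIdeal y.isPrime]
    refine not_congr ⟨fun h => ⟨fun l => ?_, h⟩, fun h => h.2⟩
    rw [hf, map_zero]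
    exact y.asIdeal.zero_mem
  · push Not at hf
    obtain ⟨i, hi⟩ := hf
    have h1 := psi1_phi1 f (Finset.cons c₀ S' hc) i hi
    have h2 := phi1_psi1 f (Finset.cons c₀ S' hc) i hi
    have hs : Function.Surjective (psi1 f (Finset.cons c₀ S' hc) i hi).toRingHom := fun z =>
      ⟨phi1 f (Finset.cons c₀ S' hc) i z, DFunLike.congr_fun h1 z⟩
    have hk : RingHom.ker (psi1 f (Finset.cons c₀ S' hc) i hi).toRingHom = Ideal.span {0} := by
      refine ker_of_retract _ (phi1 f (Finset.cons c₀ S' hc) i).toRingHom _ (map_zero _) ?_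
      intro t
      have h3 : (phi1 f (Finset.cons c₀ S' hc) i).toRingHom
          ((psi1 f (Finset.cons c₀ S' hc) i hi).toRingHom t) = t := DFunLike.congr_fun h2 t
      rw [h3, sub_self]
      exact Ideal.zero_mem _
    refine ⟨psi1 f (Finset.cons c₀ S' hc) i hi, (isOpenImmersion_SpecMap_iff_of_surjective
      (CommRingCat.ofHom (psi1 f (Finset.cons c₀ S' hc) i hi).toRingHom) hs).mpr
        ⟨0, IsIdempotentElem.zero, hk⟩, ?_⟩
    rw [range_spec _ hs _ hk]
    ext y
    refine Iff.trans ?_ (hpre y).symm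
    refine ⟨fun _ h => ?_, fun _ => y.asIdeal.zero_mem⟩
    exact y.isPrime.ne_top (y.asIdeal.eq_top_of_isUnit_mem (h.1 i) (hi.isUnit.map _))

end fibre

end Pool.Agent.H95.DC
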