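import Pool.Agent.H95.DC.Cls
import Pool.Agent.H39.Bei.Main

/-!
# Additive invariants with values in an abelian group
-/

set_option autoImplicit false

open CategoryTheory CategoryTheory.Limits AlgebraicGeometry MvPolynomial

namespace Pool.Agent.H95.DC

open Pool.Agent.Y116.UV Pool.Agent.Z125.UN Pool.Agent.H89.Dev Pool.Agent.H39.Bei

variable {k : Type} [Field k] {M : Type*} [AddCommGroup M] {δ : Sch k → ℤ → M}

lemma inv_of_additive (h : IsAdditive δ) : Inv True δ where
  iso hX e c := by rw [h.iso hX e]
  add i j hX ht c := h.add i j hX ⟨ht.closed, ht.opened, ht.compl⟩ c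
  bundle A _ _ _ m f U j hj c := h.bundle A m f U ⟨j, hj.1, hj.2⟩ c

/-- The invariant of the coverings of affine spaces. -/
theorem additive_cov (h : IsAdditive δ) (S : Finset k) (hS : S.Nonempty) {n m : ℕ}
    (f : Fin m → MvPolynomial (Fin n) k) (c : ℤ) :
    δ (covS S f) c = (S.card - 1) • δ (zeroS f) (c - m) := by
  have h1 : ∀ c, δ (aff k (MvPolynomial (Fin n) k)) c = 0 := (bnd_additive h).space n
  have h2 := inv_cov (inv_of_additive h) S f (unitDiff_field S) hS c
  rw [h1, zero_add] at h2
  exact h2

/-- double coverings -/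
theorem covP_two (h : IsAdditive δ) :
    CovP True (fun S : Finset k => S.card = 2) (Zero δ) :=
  covP_of_inv (inv_of_additive h) (bnd_additive h) _ fun S hS => ⟨hS.ge, fun x hx => by
    rw [hS] at hx
    exact (one_smul ℕ x).symm.trans hx⟩

/-- The vanishing for the zero scheme implies the vanishing for the covering. -/
theorem zero_cov (h : IsAdditive δ) (S : Finset k) (hS : S.Nonempty) {σ : Type} [Fintype σ] {m : ℕ}
    (f : Fin m → MvPolynomial σ k) (h0 : Zero δ (zeroS f)) : Zero δ (covS S f) := by
  intro c
  have h1 : ∀ c, δ (aff k (MvPolynomial σ k)) c = 0 := p_space (covP_two h) σ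
  have h2 := inv_cov (inv_of_additive h) S f (unitDiff_field S) hS c
  rw [h1, zero_add] at h2
  refine h2.trans ?_
  change _ • δ (zeroS f) (c - m) = 0
  rw [h0, smul_zero]

end Pool.Agent.H95.DC
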