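import Pool.Agent.H95.DC.Basic

/-!
# Jouanolou's device for the open part of the coverings
-/

set_option autoImplicit false

open CategoryTheory AlgebraicGeometry MvPolynomial Pool.Agent.Y116.UV

namespace Pool.Agent.H95.DC

section jou

variable {A B T : Type} [CommRing A] [CommRing B] [CommRing T] [Algebra A B] [Algebra A T] {m : ℕ}
  (f : Fin m → B)

/-- the constants -/
noncomputable def jc : B →ₐ[A] Jou f :=
  (Ideal.Quotient.mkₐ A _).comp (IsScalarTower.toAlgHom A B (MvPolynomial (Fin m) B))

/-- the coordinates -/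
noncomputable def jy (l : Fin m) : Jou f := Ideal.Quotient.mk _ (X l)

lemma jou_rel : ∑ l, jc (A := A) f (f l) * jy f l = 1 := by
  have h : Ideal.Quotient.mk (Ideal.span {∑ l, C (f l) * X l - 1}) (∑ l, C (f l) * X l - 1) = 0 :=
    Ideal.Quotient.eq_zero_iff_mem.mpr (Ideal.mem_span_singleton_self _)
  rw [map_sub, map_one, sub_eq_zero, map_sum] at h
  refine Eq.trans (Finset.sum_congr rfl fun l _ => ?_) h
  rw [map_mul]
  rfl

variable (φ : B →ₐ[A] T) (y : Fin m → T) (h : ∑ l, φ (f l) * y l = 1)

/-- Homomorphisms from Jouanolou's ring. -/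
noncomputable def jl : Jou f →ₐ[A] T :=
  Ideal.Quotient.liftₐ _ (aevalTower φ y) (by
    intro a ha
    have h1 : Ideal.span {∑ l, C (f l) * X l - 1} ≤ RingHom.ker (aevalTower φ y) := by
      rw [Ideal.span_singleton_le_iff_mem, RingHom.mem_ker, map_sub, map_one, map_sum, sub_eq_zero,
        ← h]
      refine Finset.sum_congr rfl fun l _ => ?_
      rw [map_mul, aevalTower_C, aevalTower_X]
    exact h1 ha)

lemma jl_c (b : B) : jl f φ y h (jc (A := A) f b) = φ b := by
  change aevalTower φ y (C b) = φ b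
  rw [aevalTower_C]

lemma jl_y (l : Fin m) : jl f φ y h (jy f l) = y l := by
  change aevalTower φ y (X l) = y l
  rw [aevalTower_X]

omit φ y h in
lemma jou_ext {φ ψ : Jou f →ₐ[A] T} (h1 : φ.comp (jc f) = ψ.comp (jc f))
    (h2 : ∀ l, φ (jy f l) = ψ (jy f l)) : φ = ψ := by
  apply Ideal.Quotient.algHom_ext
  apply MvPolynomial.algHom_ext'
  · exact h1
  · exact h2

end jou

section iso

variable {R A : Type} [CommRing R] [CommRing A] [Algebra R A] (S : Finset R) {m : ℕ} (f : Fin m → A)

/-- the functions `f_l` on the covering -/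
noncomputable def fc (l : Fin m) : Cov S f := algebraMap A _ (f l)

/-- the functions `f_l` on Jouanolou's bundle -/
noncomputable def fj (l : Fin m) : Jou f := algebraMap A _ (f l)

/-- Jouanolou's ring for the covering -/
abbrev JC : Type := Jou (fc S f)

/-- Jouanolou's ring over Jouanolou's ring -/
abbrev JJ : Type := Jou (fj f)

/-- the same with one more variable -/
abbrev JX : Type := MvPolynomial (Fin 1) (JJ f)

/-- `g(w)` -/
noncomputable def gp {T : Type} [CommRing T] [Algebra R T] (S : Finset R) (w : T) : T :=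
  ∏ c ∈ S, (w - algebraMap R T c)

/-- the coordinates of the first bundle -/
noncomputable def y1 (l : Fin m) : JX f := C (jc (A := A) (fj f) (jy f l))

/-- the coordinates of the second bundle -/
noncomputable def y2 (l : Fin m) : JX f := C (jy (fj f) l)

lemma y1_rel : ∑ l, algebraMap A (JX f) (f l) * y1 f l = 1 := by
  have h := jou_rel (A := A) f
  have h2 := congrArg (fun t => (C (jc (A := A) (fj f) t) : JX f)) h
  simp only [map_sum, map_mul, map_one] at h2
  rw [← h2]
  refine Finset.sum_congr rfl fun l _ => ?_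
  rfl

lemma y2_rel : ∑ l, algebraMap A (JX f) (f l) * y2 f l = 1 := by
  have h := jou_rel (A := A) (fj f)
  have h2 := congrArg (fun t => (C t : JX f)) h
  simp only [map_sum, map_mul, map_one] at h2
  rw [← h2]
  refine Finset.sum_congr rfl fun l _ => ?_
  rfl

/-- to the second ring, on the covering -/
noncomputable def toX0 : Cov S f →ₐ[A] JX f :=
  covLift S f (fun l => y2 f l + (gp S (X 0 : JX f) - 1) * y1 f l) (X 0) (by
    have h1 : ∏ c ∈ S, ((X 0 : JX f) - algebraMap A (JX f) (algebraMap R A c)) = gp S (X 0) := rfl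
    rw [h1]
    have h2 : ∀ l, algebraMap A (JX f) (f l) * (y2 f l + (gp S (X 0 : JX f) - 1) * y1 f l) =
        algebraMap A (JX f) (f l) * y2 f l +
          (gp S (X 0 : JX f) - 1) * (algebraMap A (JX f) (f l) * y1 f l) := fun l => by ring
    simp_rw [h2]
    rw [Finset.sum_add_distrib, ← Finset.mul_sum, y1_rel, y2_rel]
    ring)

/-- to the second ring -/
noncomputable def toX : JC S f →ₐ[A] JX f :=
  jl (fc S f) (toX0 S f) (y1 f) (by
    rw [← y1_rel f]
    refine Finset.sum_congr rfl fun l _ => ?_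
    rw [fc, AlgHom.commutes])

/-- from the second ring, on the first bundle -/
noncomputable def ofX1 : Jou f →ₐ[A] JC S f :=
  jl f (Algebra.ofId A _) (jy (fc S f)) (by
    have h := jou_rel (A := A) (fc S f)
    refine Eq.trans (Finset.sum_congr rfl fun l _ => ?_) h
    rw [fc, AlgHom.commutes]
    rfl)

/-- `w` -/
noncomputable def wc : JC S f := jc (A := A) (fc S f) (cw S f)

lemma gp_wc : gp S (wc S f) = ∑ l, algebraMap A (JC S f) (f l) * jc (A := A) (fc S f) (cx S f l) := by
  have h := congrArg (jc (A := A) (fc S f)) (cov_rel S f)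
  rw [map_prod, map_sum] at h
  refine Eq.trans (Finset.prod_congr rfl fun c _ => ?_) (h.trans
    (Finset.sum_congr rfl fun l _ => ?_))
  · rw [map_sub]
    rfl
  · rw [map_mul, AlgHom.commutes]

/-- from the second ring, on the second bundle -/
noncomputable def ofX2 : JJ f →ₐ[A] JC S f :=
  jl (fj f) (ofX1 S f) (fun l => jc (A := A) (fc S f) (cx S f l) - (gp S (wc S f) - 1) *
      jy (fc S f) l) (by
    have h := jou_rel (A := A) (fc S f)
    have h2 : ∀ l, ofX1 S f (fj f l) * (jc (A := A) (fc S f) (cx S f l) - (gp S (wc S f) - 1) *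
        jy (fc S f) l) = algebraMap A (JC S f) (f l) * jc (A := A) (fc S f) (cx S f l) -
          (gp S (wc S f) - 1) * (jc (A := A) (fc S f) (fc S f l) * jy (fc S f) l) := by
      intro l
      rw [fj, AlgHom.commutes, fc, AlgHom.commutes]
      ring
    simp_rw [h2]
    rw [Finset.sum_sub_distrib, ← Finset.mul_sum, h, ← gp_wc]
    ring)

/-- from the second ring -/
noncomputable def ofX : JX f →ₐ[A] JC S f := aevalTower (ofX2 S f) fun _ => wc S f

lemma ofX1_y (l : Fin m) : ofX1 S f (jy f l) = jy (fc S f) l := jl_y _ _ _ _ _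

lemma ofX2_c (b : Jou f) : ofX2 S f (jc (A := A) (fj f) b) = ofX1 S f b := jl_c _ _ _ _ _

lemma ofX2_y (l : Fin m) : ofX2 S f (jy (fj f) l) =
    jc (A := A) (fc S f) (cx S f l) - (gp S (wc S f) - 1) * jy (fc S f) l := jl_y _ _ _ _ _

lemma ofX_C (b : JJ f) : ofX S f (C b) = ofX2 S f b := aevalTower_C _ _ _

lemma ofX_X : ofX S f (X 0) = wc S f := aevalTower_X _ _ _

lemma ofX_y1 (l : Fin m) : ofX S f (y1 f l) = jy (fc S f) l := by
  rw [y1, ofX_C, ofX2_c, ofX1_y]

lemma ofX_y2 (l : Fin m) : ofX S f (y2 f l) =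
    jc (A := A) (fc S f) (cx S f l) - (gp S (wc S f) - 1) * jy (fc S f) l := by
  rw [y2, ofX_C, ofX2_y]

lemma map_gp {T T' : Type} [CommRing T] [CommRing T'] [Algebra R T] [Algebra R T'] [Algebra A T]
    [Algebra A T'] [IsScalarTower R A T] [IsScalarTower R A T'] (φ : T →ₐ[A] T') (w : T) :
    φ (gp S w) = gp S (φ w) := by
  rw [gp, gp, map_prod]
  refine Finset.prod_congr rfl fun c _ => ?_
  rw [map_sub, IsScalarTower.algebraMap_apply R A T, AlgHom.commutes,
    ← IsScalarTower.algebraMap_apply R A T']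

lemma toX_c (b : Cov S f) : toX S f (jc (A := A) (fc S f) b) = toX0 S f b := jl_c _ _ _ _ _

lemma toX_y (l : Fin m) : toX S f (jy (fc S f) l) = y1 f l := jl_y _ _ _ _ _

lemma toX_w : toX S f (wc S f) = X 0 := by
  rw [wc, toX_c, toX0, covLift_w]

lemma toX_x (l : Fin m) : toX S f (jc (A := A) (fc S f) (cx S f l)) =
    y2 f l + (gp S (X 0 : JX f) - 1) * y1 f l := by
  rw [toX_c, toX0, covLift_x]

lemma ofX_toX : (ofX S f).comp (toX S f) = AlgHom.id A _ := by
  apply jou_ext
  · apply cov_ext
    · intro l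
      change ofX S f (toX S f (jc (A := A) (fc S f) (cx S f l))) = jc (A := A) (fc S f) (cx S f l)
      have hg := map_gp (R := R) (A := A) S (ofX S f) (X 0 : JX f)
      rw [toX_x, map_add, map_mul, map_sub, map_one, ofX_y2, ofX_y1, hg, ofX_X]
      ring
    · change ofX S f (toX S f (wc S f)) = wc S f
      rw [toX_w, ofX_X]
  · intro l
    change ofX S f (toX S f (jy (fc S f) l)) = jy (fc S f) l
    rw [toX_y, ofX_y1]

lemma toX_ofX : (toX S f).comp (ofX S f) = AlgHom.id A _ := by
  apply MvPolynomial.algHom_ext'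
  · refine jou_ext (A := A) (T := JX f) (fj f) ?_ ?_
    · refine jou_ext (A := A) (T := JX f) f ?_ ?_
      · ext
      · intro l
        change toX S f (ofX S f (y1 f l)) = y1 f l
        rw [ofX_y1, toX_y]
    · intro l
      change toX S f (ofX S f (y2 f l)) = y2 f l
      have hg := map_gp (R := R) (A := A) (T := JC S f) (T' := JX f) S (toX S f) (wc S f)
      rw [ofX_y2, map_sub, map_mul, map_sub, map_one, toX_x, toX_y, hg, toX_w]
      ring
  · intro i
    fin_cases i
    change toX S f (ofX S f (X 0)) = X 0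
    rw [ofX_X, toX_w]

/-- **The isomorphism.** -/
noncomputable def jouE : JC S f ≃ₐ[A] JX f :=
  AlgEquiv.ofAlgHom (toX S f) (ofX S f) (toX_ofX S f) (ofX_toX S f)

end iso

end Pool.Agent.H95.DC
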