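import Pool.Agent.H95.DC.DB

/-!
# Conjectures for classes of varieties, additive invariants and coverings
-/

set_option autoImplicit false

open CategoryTheory CategoryTheory.Limits AlgebraicGeometry MvPolynomial TensorProduct

namespace Pool.Agent.H95.DC

open Pool.Agent.Y116.UV Pool.Agent.Z125.UN Pool.Agent.H39.Bei Pool.Agent.H89.Dev

variable {k : Type} [Field k] [PerfectField k] {Θ : Sort*} {M : Type*} [AddCommGroup M]
  {δ : Θ → Sch k → ℤ → M} (hδ : ∀ θ, IsAdditive (δ θ)) {H : Θ → Sch k → Prop} {Q : Sch k → Prop}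
  (hQ : IsClass Q) (hH : ∀ θ X, Q X → (H θ X ↔ Zero (δ θ) X))

include hδ hH in
/-- Finitely many varieties. -/
theorem pkg_class (hQ : IsClass Q) {d : ℕ} (hM : ModelsIn Q d) (X : Sch k) (hX : DBuilt d X) :
    ∃ 𝒴 : List (Sch k), (∀ Y ∈ 𝒴, Q Y ∧ topologicalKrullDim Y.left ≤ d) ∧
      ∀ θ, (∀ Y ∈ 𝒴, H θ Y) → Zero (δ θ) X ∧ (Q X → H θ X) := by
  obtain ⟨L, h1, h2⟩ := lst_class (fun θ => covD_additive (hδ θ)) hQ hM X hX
  refine ⟨L, h1, fun θ h3 => ?_⟩
  have h4 := h2 θ fun Y hY => (hH θ Y (h1 Y hY).1).mp (h3 Y hY)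
  exact ⟨h4, fun h => (hH θ X h).mpr h4⟩

include hδ hH in
/-- Finitely many double coverings. -/
theorem pkg_double (S : Finset k) (hS : S.card = 2) {d : ℕ} (X : Sch k) (hX : DBuilt d X) :
    ∃ L : List (Sch k), (∀ Y ∈ L, IsDouble S (d + 2) Y) ∧
      ∀ θ, (∀ Y ∈ L, Zero (δ θ) Y) → Zero (δ θ) X ∧ (Q X → H θ X) := by
  obtain ⟨L, h1, h2⟩ := lst_double (fun θ => covD_additive (hδ θ)) S hS X hX
  exact ⟨L, h1, fun θ h3 => ⟨h2 θ h3, fun h => (hH θ X h).mpr (h2 θ h3)⟩⟩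

include hδ hH hQ

/-- The class and double coverings. -/
theorem pkg_iff (θ : Θ) (S : Finset k) (hS : S.card = 2) {d : ℕ} (hM : ModelsIn Q d) :
    ForClass Q (H θ) d ↔ ∀ Y, IsDouble S (d + 2) Y → Zero (δ θ) Y := by
  have h0 : ForClass Q (H θ) d ↔ ForClass Q (Zero (δ θ)) d :=
    forall_congr' fun X => forall_congr' fun hX => forall_congr' fun _ => hH θ X hX
  rw [h0, class_cov (covP_two (hδ θ)) hQ S hS hM]
  exact ⟨fun h Y ⟨a, b, c, t, hc, hY⟩ => hY ▸ h a b c t hc,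
    fun h a b c t hc => h _ ⟨a, b, c, t, hc, rfl⟩⟩

/-- The class and the schemes built by coverings. -/
theorem pkg_built (θ : Θ) {d : ℕ} (hM : ModelsIn Q d) :
    ForClass Q (H θ) d ↔ ∀ X, DBuilt d X → Zero (δ θ) X := by
  have h0 : ForClass Q (H θ) d ↔ ForClass Q (Zero (δ θ)) d :=
    forall_congr' fun X => forall_congr' fun hX => forall_congr' fun _ => hH θ X hX
  rw [h0, class_dim (covP_two (hδ θ)) hQ hM]
  exact dim_iff_dbuilt (covD_additive (hδ θ)) d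

/-- All dimensions. -/
theorem pkg_all (θ : Θ) (S : Finset k) (hS : S.card = 2) (hM : ∀ d, ModelsIn Q d) :
    (∀ X, Q X → H θ X) ↔
      ∀ (a b c : ℕ) (t : Fin a → Fin b → Fin c → k), Zero (δ θ) (covS S (bq t)) := by
  have h0 : (∀ X, Q X → H θ X) ↔ ∀ X, Q X → Zero (δ θ) X :=
    forall_congr' fun X => forall_congr' fun hX => hH θ X hX
  rw [h0, class_all (covP_two (hδ θ)) hQ hM, all_cov (covP_two (hδ θ)) S hS]

/-- All dimensions, prime fields. -/
theorem pkg_frac (hk : Pool.Agent.Q193.LT.Frac k) (θ : Θ) (S : Finset k) (hS : S.card = 2)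
    (hM : ∀ d, ModelsIn Q d) :
    (∀ X, Q X → H θ X) ↔
      ∀ (a b c : ℕ) (E : Fin c → Finset (Fin a × Fin b)), Zero (δ θ) (covS S (bf k E)) := by
  have h0 : (∀ X, Q X → H θ X) ↔ ∀ X, Q X → Zero (δ θ) X :=
    forall_congr' fun X => forall_congr' fun hX => hH θ X hX
  rw [h0, class_all (covP_two (hδ θ)) hQ hM, frac_cov (covP_two (hδ θ)) hk S hS]

end Pool.Agent.H95.DC
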